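import Pool.Agent.U308.TL.Base
import Pool.Agent.Y885.WI2

set_option autoImplicit false

/-! Goldbach pairs for all the even multiples of all the integers near almost all smooth numbers (adapted from the starting file
`Pool.Agent.N469.TL.Mult`). -/

namespace Pool.Agent.U308.TL
open Finset
open Pool.Agent.H373R2.T7
open Pool.Agent.N469.TL (log_digits form near abs_val)
open Pool.Agent.N469.SM (SS mem_SS one_mem_SS SS_mono card_SS_le card_SS_pos)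

theorem sm_mult2 (μ : ℤ) (hμ : μ ≠ 0) (Kp Bc A W J U m₀ : ℕ) (ε : ℝ) (hε : 0 < ε) (Pr : ℕ → Prop)
    (hPr : ∀ m : ℕ, m₀ ≤ m → 2 ∣ m → Pool.Agent.W93.PG.WinP ε A m → Pr m) (δ : ℝ) (hδ : 0 < δ) :
    ∃ N₀ : ℕ, ∀ N, N₀ ≤ N → ∀ P y, Cond2 δ Kp N P y → ∀ E : ℕ → Prop, ∀ _ : DecidablePred E,
    (∃ cc : ℤ, |cc| ≤ Bc * N ∧ ∀ v, E v → ∃ h : ℕ, 1 ≤ h ∧ (h : ℝ) ≤ Real.log N ^ J ∧ ∃ r : ℤ, |(r : ℝ)| ≤ Real.log N ^ W ∧
      0 < (h : ℤ) * (cc + μ * (v : ℤ) + r) ∧ 2 ∣ (h : ℤ) * (cc + μ * (v : ℤ) + r) ∧ ¬ Pr ((h : ℤ) * (cc + μ * (v : ℤ) + r)).toNat) →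
    ∑ v ∈ SS P N, (if E v then 1 / ((SS P N).card : ℝ) else 0) ≤ 1 / Real.log N ^ U := by
  classical
  obtain ⟨U', hU'⟩ : ∃ U', U' = (U + J + 1) + W + 1 := ⟨_, rfl⟩
  obtain ⟨e₁, he₁⟩ : ∃ e₁, e₁ = 2 * (Bc + 1) + μ.natAbs + 3 := ⟨_, rfl⟩
  obtain ⟨Ws, N1, h1⟩ := sm_small2 δ hδ Kp μ hμ (U' + 1)
  obtain ⟨W', hW'⟩ : ∃ W', W' = Ws + J + 1 := ⟨_, rfl⟩
  obtain ⟨c, N2, h2⟩ := sm_tlaw2 δ hδ Kp μ.natAbs (J + 1) (2 * ((U' + 3) + 2 * (A + W' + 4) + 9) + 6) (U' + 2) (by omega)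
  obtain ⟨K0, h3⟩ := Pool.Agent.Y885.tl_win0 2 le_rfl 3 c A W' (U' + 3) m₀ (by norm_num) ε hε Pr hPr
  obtain ⟨N4, h4⟩ := near J U
  obtain ⟨N5, h5⟩ := near W (U + J + 1)
  obtain ⟨N6, h6⟩ := ev_L' ((2 ^ (e₁ + 2) * 3 ^ J : ℕ) : ℝ)
  obtain ⟨T, hT⟩ : ∃ T : ℕ, T = 2 ^ (e₁ + 3) := ⟨_, rfl⟩
  obtain ⟨Z, hZ⟩ : ∃ Z : ℕ, Z = 2 ^ (K0 + T) := ⟨_, rfl⟩
  refine ⟨N1 + N2 + N4 + N5 + N6 + Z + 3, fun N hN P y hP E _ hE => ?_⟩
  obtain ⟨cc, hcc, hbad⟩ := hE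
  obtain ⟨w, hw0, hw1, hdom, hlaw⟩ := h2 N (by omega) P y hP
  have hk : K0 + T ≤ Nat.log 2 N := (Nat.le_log_iff_pow_le (by norm_num) (by omega)).2 (by rw [← hZ]; omega)
  obtain ⟨hlog, hlog3⟩ := log_digits N (by omega)
  have hLN0 : 0 < Real.log N := Real.log_pos (by exact_mod_cast (by omega : 1 < N))
  have hN0 : (0 : ℝ) < N := by exact_mod_cast (by omega : 0 < N)
  have hL6 := h6 N (by omega)
  push_cast at hL6
  have hL4 : 4 ≤ Real.log N := by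
    refine le_trans ?_ hL6
    have a1 : (1 : ℝ) ≤ 3 ^ J := one_le_pow₀ (by norm_num)
    have a2 : (1 : ℝ) ≤ 2 ^ e₁ := one_le_pow₀ (by norm_num)
    have a3 : (2 : ℝ) ^ (e₁ + 2) = 4 * 2 ^ e₁ := by rw [pow_add]; norm_num; ring
    rw [a3]
    nlinarith
  have hp0 : (0 : ℝ) ≤ 1 / ((SS P N).card : ℝ) := by positivity
  -- the level
  obtain ⟨k, hkd⟩ : ∃ k, k = Nat.log 2 N + 1 := ⟨_, rfl⟩
  obtain ⟨e₂, he₂⟩ : ∃ e₂, e₂ = Nat.clog 2 (k ^ J) := ⟨_, rfl⟩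
  have hk1 : 1 ≤ k := by omega
  have b1 : k ^ J ≤ 2 ^ e₂ := by rw [he₂]; exact Nat.le_pow_clog (by norm_num) _
  have b2 : 2 ^ e₂ ≤ 2 * k ^ J := by
    rcases Nat.eq_zero_or_pos e₂ with h0 | h0
    · rw [h0, pow_zero]
      have := Nat.one_le_pow J k hk1
      omega
    · have b3 : 2 ^ (e₂ - 1) < k ^ J := by
        rw [he₂] at h0 ⊢
        exact Nat.pow_pred_clog_lt_self (by norm_num) (by
          by_contra hc
          push Not at hc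
          rw [Nat.clog_of_right_le_one hc] at h0
          omega)
      have : 2 ^ e₂ = 2 * 2 ^ (e₂ - 1) := by rw [← pow_succ']; congr 1; omega
      omega
  have he : 2 ^ (e₁ + 2 + e₂) ≤ (Nat.log 2 N + 1) ^ (J + 1) := by
    rw [← hkd]
    calc 2 ^ (e₁ + 2 + e₂) = 2 ^ (e₁ + 2) * 2 ^ e₂ := pow_add _ _ _
      _ ≤ 2 ^ (e₁ + 2) * (2 * k ^ J) := Nat.mul_le_mul_left _ b2
      _ = 2 ^ (e₁ + 3) * k ^ J := by ring
      _ ≤ k * k ^ J := Nat.mul_le_mul_right _ (by rw [← hT]; omega)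
      _ = k ^ (J + 1) := by ring
  obtain ⟨K, hK⟩ : ∃ K, K = k + e₁ + e₂ := ⟨_, rfl⟩
  have hN2 : N < 2 ^ k := by rw [hkd]; exact Nat.lt_pow_succ_log_self (by norm_num) N
  -- the threshold
  have hthr : ((2 ^ K : ℕ) : ℝ) / Real.log ((2 ^ K : ℕ) : ℝ) ^ W' ≤ N / Real.log N ^ Ws := by
    have a1 : ((2 ^ K : ℕ) : ℝ) ≤ (2 ^ (e₁ + 2) * 3 ^ J) * Real.log N ^ J * N := by
      have c1 : 2 ^ K ≤ 2 ^ (e₁ + 2) * k ^ J * N := by
        calc 2 ^ K = 2 ^ e₁ * 2 ^ e₂ * 2 ^ k := by rw [hK, ← pow_add, ← pow_add]; congr 1; omega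
          _ ≤ 2 ^ e₁ * (2 * k ^ J) * (2 * N) := by
              apply Nat.mul_le_mul (Nat.mul_le_mul_left _ b2)
              rw [hkd, pow_succ, mul_comm]
              exact Nat.mul_le_mul_left _ (Nat.pow_log_le_self 2 (by omega))
          _ = _ := by ring
      have c2 : ((2 ^ K : ℕ) : ℝ) ≤ 2 ^ (e₁ + 2) * (k : ℝ) ^ J * N := by exact_mod_cast c1
      have c3 : (k : ℝ) ^ J ≤ 3 ^ J * Real.log N ^ J := by
        rw [← mul_pow]
        apply pow_le_pow_left₀ (Nat.cast_nonneg _)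
        rw [hkd]
        exact hlog3
      refine c2.trans ?_
      apply mul_le_mul_of_nonneg_right _ hN0.le
      rw [mul_assoc]
      exact mul_le_mul_of_nonneg_left c3 (by positivity)
    have a2 : Real.log N ≤ Real.log ((2 ^ K : ℕ) : ℝ) := by
      apply Real.log_le_log hN0
      have : N ≤ 2 ^ K := hN2.le.trans (Nat.pow_le_pow_right (by norm_num) (by omega))
      exact_mod_cast this
    have a3 : ((2 ^ K : ℕ) : ℝ) / Real.log ((2 ^ K : ℕ) : ℝ) ^ W' ≤ ((2 ^ K : ℕ) : ℝ) / Real.log N ^ W' := by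
      apply div_le_div_of_nonneg_left (Nat.cast_nonneg _) (by positivity)
      exact pow_le_pow_left₀ hLN0.le a2 _
    refine a3.trans ?_
    rw [div_le_div_iff₀ (by positivity) (by positivity)]
    calc ((2 ^ K : ℕ) : ℝ) * Real.log N ^ Ws ≤ ((2 ^ (e₁ + 2) * 3 ^ J) * Real.log N ^ J * N) * Real.log N ^ Ws := by gcongr
      _ ≤ (Real.log N * Real.log N ^ J * N) * Real.log N ^ Ws := by gcongr
      _ = N * Real.log N ^ W' := by rw [hW']; ring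
  -- for one multiplier and one shift
  have hone : ∀ h : ℕ, 1 ≤ h → (h : ℝ) ≤ Real.log N ^ J → ∀ r : ℤ, |r| ≤ N →
      ∑ v ∈ SS P N, (if (0 < (h : ℤ) * (cc + μ * (v : ℤ) + r) ∧ 2 ∣ (h : ℤ) * (cc + μ * (v : ℤ) + r) ∧
        ¬ Pr ((h : ℤ) * (cc + μ * (v : ℤ) + r)).toNat) then 1 / ((SS P N).card : ℝ) else 0) ≤ 1 / Real.log N ^ U' := by
    intro h hh1 hh2 r hr
    have hhk : h ≤ k ^ J := by
      have : (h : ℝ) ≤ ((k ^ J : ℕ) : ℝ) := by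
        refine hh2.trans ?_
        push_cast
        apply pow_le_pow_left₀ hLN0.le
        rw [hkd]
        exact hlog
      exact_mod_cast this
    have hform : (∀ v : ℕ, ((h : ℤ) * (cc + μ * (v : ℤ) + r)) = (h : ℤ) * (cc + r) + (h : ℤ) * ((μ.natAbs : ℤ) * (v : ℤ))) ∨
        (∀ v : ℕ, ((h : ℤ) * (cc + μ * (v : ℤ) + r)) = (h : ℤ) * (cc + r) - (h : ℤ) * ((μ.natAbs : ℤ) * (v : ℤ))) := by
      rcases form h μ ((h : ℤ) * (cc + r)) with h' | h'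
      · left
        intro v
        rw [← h' v]
        ring
      · right
        intro v
        rw [← h' v]
        ring
    have hhw : h ≤ (Nat.log 2 N + 1) ^ (J + 1) := by
      rw [← hkd]
      exact hhk.trans (Nat.pow_le_pow_right hk1 (by omega))
    have l2 := hlaw (e₁ + 2 + e₂) he h hh1 hhw ((h : ℤ) * (cc + r)) (fun v => (h : ℤ) * (cc + μ * (v : ℤ) + r)) hform
    rw [← hkd, show k + (e₁ + 2 + e₂) = K + 2 by rw [hK]; ring] at l2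
    have key := h3 K (by omega) ℕ _ _ _ l2 (by
      intro v hv
      have a1 := abs_val μ Bc N v cc hcc (mem_SS.1 hv).1.2
      have a3 : |(cc + μ * (v : ℤ)) + r| ≤ |cc + μ * (v : ℤ)| + |r| := abs_add_le _ _
      have a5 : (N : ℤ) ≤ (2 : ℤ) ^ k := by exact_mod_cast hN2.le
      have a6 : ((e₁ : ℕ) : ℤ) ≤ (2 : ℤ) ^ e₁ := by exact_mod_cast (Nat.lt_two_pow_self).le
      have a7 : |(cc + μ * (v : ℤ)) + r| ≤ (e₁ : ℤ) * N := by
        have : ((e₁ : ℕ) : ℤ) = 2 * (Bc + 1) + μ.natAbs + 3 := by rw [he₁]; push_cast; ring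
        rw [this]
        push_cast at a1
        have : (0 : ℤ) ≤ Bc * (N : ℤ) := by positivity
        nlinarith
      have a8 : |(cc + μ * (v : ℤ)) + r| ≤ (2 : ℤ) ^ (k + e₁) := by
        refine a7.trans ?_
        rw [pow_add, mul_comm]
        exact mul_le_mul a5 a6 (by positivity) (by positivity)
      have a9 : |(h : ℤ) * ((cc + μ * (v : ℤ)) + r)| ≤ (2 : ℤ) ^ K := by
        rw [hK, abs_mul, Nat.abs_cast, pow_add _ (k + e₁) e₂, mul_comm]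
        have c1 : (h : ℤ) ≤ (2 : ℤ) ^ e₂ := by exact_mod_cast hhk.trans b1
        exact mul_le_mul a8 c1 (by positivity) (by positivity)
      exact_mod_cast a9) (fun v => 0 < (h : ℤ) * (cc + μ * (v : ℤ) + r) ∧
      2 ∣ (h : ℤ) * (cc + μ * (v : ℤ) + r) ∧ ((2 ^ K : ℕ) : ℝ) / Real.log ((2 ^ K : ℕ) : ℝ) ^ W' ≤ (((h : ℤ) * (cc + μ * (v : ℤ) + r) : ℤ) : ℝ) ∧
      ¬ Pr ((h : ℤ) * (cc + μ * (v : ℤ) + r)).toNat) (Classical.decPred _) (fun v _ hv => hv)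
    have g2 := dom_le N (U' + 1) (SS P N) w hdom (by linarith) _ _ (key.trans (by
      apply one_div_le_one_div_of_le (by positivity)
      apply pow_le_pow_left₀ hLN0.le
      refine hlog.trans ?_
      exact_mod_cast (by omega : Nat.log 2 N + 1 ≤ K)))
    have g1 := h1 N (by omega) P y hP (cc + r)
    have g3 : 1 / Real.log N ^ (U' + 1) + 1 / Real.log N ^ (U' + 1) ≤ 1 / Real.log N ^ U' := by
      rw [← add_div, div_le_div_iff₀ (by positivity) (by positivity), pow_succ, one_mul]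
      have : 0 < Real.log N ^ U' := by positivity
      nlinarith
    have hnn : ∀ (Q : Prop) (_ : Decidable Q), (0 : ℝ) ≤ if Q then 1 / ((SS P N).card : ℝ) else 0 := by
      intro Q _
      split_ifs
      · exact hp0
      · exact le_rfl
    refine le_trans (le_trans ?_ (add_le_add g1 g2)) g3
    rw [← sum_add_distrib]
    apply sum_le_sum
    intro v _
    by_cases c1 : 0 < (h : ℤ) * (cc + μ * (v : ℤ) + r) ∧ 2 ∣ (h : ℤ) * (cc + μ * (v : ℤ) + r) ∧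
        ¬ Pr ((h : ℤ) * (cc + μ * (v : ℤ) + r)).toNat
    · rw [if_pos c1]
      have hY0 : 1 ≤ (cc + r) + μ * (v : ℤ) := by
        have : 0 < cc + μ * (v : ℤ) + r := pos_of_mul_pos_right c1.1 (by positivity)
        linarith
      by_cases c2 : ((((cc + r) + μ * (v : ℤ) : ℤ)) : ℝ) * Real.log N ^ Ws < N
      · rw [if_pos ⟨hY0, c2⟩]
        exact le_add_of_nonneg_right (hnn _ _)
      · push Not at c2
        have c3 : ((2 ^ K : ℕ) : ℝ) / Real.log ((2 ^ K : ℕ) : ℝ) ^ W' ≤ (((h : ℤ) * (cc + μ * (v : ℤ) + r) : ℤ) : ℝ) := by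
          refine hthr.trans ?_
          rw [div_le_iff₀ (by positivity)]
          refine c2.trans ?_
          apply mul_le_mul_of_nonneg_right _ (by positivity)
          have d1 : (cc + r) + μ * (v : ℤ) ≤ (h : ℤ) * (cc + μ * (v : ℤ) + r) := by
            have d2 : (1 : ℤ) ≤ h := by exact_mod_cast hh1
            nlinarith
          exact_mod_cast d1
        have c4 : 0 < (h : ℤ) * (cc + μ * (v : ℤ) + r) ∧
            2 ∣ (h : ℤ) * (cc + μ * (v : ℤ) + r) ∧ ((2 ^ K : ℕ) : ℝ) / Real.log ((2 ^ K : ℕ) : ℝ) ^ W' ≤ (((h : ℤ) * (cc + μ * (v : ℤ) + r) : ℤ) : ℝ) ∧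
            ¬ Pr ((h : ℤ) * (cc + μ * (v : ℤ) + r)).toNat := ⟨c1.1, c1.2.1, c3, c1.2.2⟩
        rw [if_pos c4]
        exact le_add_of_nonneg_left (hnn _ _)
    · rw [if_neg c1]
      exact add_nonneg (hnn _ _) (hnn _ _)
  -- the two union bounds
  refine h4 N (by omega) (SS P N) _ hp0 E _ (fun h v => 1 ≤ h ∧ (h : ℝ) ≤ Real.log N ^ J ∧ ∃ r : ℤ, |(r : ℝ)| ≤ Real.log N ^ W ∧
      0 < h * (cc + μ * (v : ℤ) + r) ∧ 2 ∣ h * (cc + μ * (v : ℤ) + r) ∧ ¬ Pr (h * (cc + μ * (v : ℤ) + r)).toNat)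
      (fun h v => Classical.propDecidable _) ?_ ?_
  · intro h hh _
    by_cases hh1 : 1 ≤ h
    · obtain ⟨n, hn⟩ : ∃ n : ℕ, h = n := ⟨h.toNat, by omega⟩
      subst hn
      have hn1 : 1 ≤ n := by exact_mod_cast hh1
      have hn2 : (n : ℝ) ≤ Real.log N ^ J := by
        rw [Int.cast_natCast] at hh
        exact (le_abs_self _).trans hh
      refine h5 N (by omega) (SS P N) _ hp0 _ _ (fun r v => 0 < (n : ℤ) * (cc + μ * (v : ℤ) + r) ∧ 2 ∣ (n : ℤ) * (cc + μ * (v : ℤ) + r) ∧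
        ¬ Pr ((n : ℤ) * (cc + μ * (v : ℤ) + r)).toNat) (fun r v => Classical.propDecidable _) (fun r _ hr => ?_) (fun v _ hv => ?_)
      · have h6 := hone n hn1 hn2 r hr
        rw [hU'] at h6
        refine le_trans (le_of_eq ?_) h6
        apply sum_congr rfl
        intro v _
        congr
      · obtain ⟨_, _, r, hr, h7⟩ := hv
        exact ⟨r, hr, h7⟩
    · have : ∀ v ∈ SS P N, (if (1 ≤ h ∧ (h : ℝ) ≤ Real.log N ^ J ∧ ∃ r : ℤ, |(r : ℝ)| ≤ Real.log N ^ W ∧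
          0 < h * (cc + μ * (v : ℤ) + r) ∧ 2 ∣ h * (cc + μ * (v : ℤ) + r) ∧ ¬ Pr (h * (cc + μ * (v : ℤ) + r)).toNat)
          then 1 / ((SS P N).card : ℝ) else 0) = 0 := by
        intro v _
        rw [if_neg (fun hc => hh1 hc.1)]
      refine le_trans (le_of_eq (sum_congr rfl fun v hv => ?_)) (?_ : (∑ v ∈ SS P N, (0 : ℝ)) ≤ _)
      · rw [if_neg (fun hc => hh1 hc.1)]
      · rw [sum_const_zero]
        positivity
  · intro v _ hEv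
    obtain ⟨h, a1, a2, r, a3⟩ := hbad v hEv
    refine ⟨(h : ℤ), ?_, by exact_mod_cast a1, ?_, r, a3⟩
    · rw [Int.cast_natCast, abs_of_nonneg (Nat.cast_nonneg _)]
      exact a2
    · rw [Int.cast_natCast]
      exact a2

theorem sm_windows2 (μ : ℤ) (hμ : μ ≠ 0) (Kp Bc A W U m₀ : ℕ) (ε : ℝ) (hε : 0 < ε) (Pr : ℕ → Prop)
    (hPr : ∀ m : ℕ, m₀ ≤ m → 2 ∣ m → Pool.Agent.W93.PG.WinP ε A m → Pr m) (δ : ℝ) (hδ : 0 < δ) :
    ∃ N₀ : ℕ, ∀ N, N₀ ≤ N → ∀ P y, Cond2 δ Kp N P y → ∀ E : ℕ → Prop, ∀ _ : DecidablePred E,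
    (∃ cc : ℤ, |cc| ≤ Bc * N ∧ ∀ v, E v → ∃ r : ℤ, |(r : ℝ)| ≤ Real.log N ^ W ∧ 0 < cc + μ * (v : ℤ) + r ∧
      2 ∣ cc + μ * (v : ℤ) + r ∧ ¬ Pr (cc + μ * (v : ℤ) + r).toNat) →
    ∑ v ∈ SS P N, (if E v then 1 / ((SS P N).card : ℝ) else 0) ≤ 1 / Real.log N ^ U := by
  obtain ⟨N₀, h⟩ := sm_mult2 μ hμ Kp Bc A W 0 U m₀ ε hε Pr hPr δ hδ
  refine ⟨N₀, fun N hN P y hP E _ ⟨cc, hcc, hE⟩ => h N hN P y hP E _ ⟨cc, hcc, fun v hv => ?_⟩⟩
  obtain ⟨r, h1, h2, h3, h4⟩ := hE v hv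
  refine ⟨1, le_rfl, by simp, r, h1, ?_⟩
  rw [Nat.cast_one, one_mul]
  exact ⟨h2, h3, h4⟩

end Pool.Agent.U308.TL
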