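import Pool.Agent.U308.TL.Fin
import Pool.Agent.N469.TL.Hooley

set_option autoImplicit false

/-! Few of the integers composed of primes from `P` give a bad modulus or a small value (adapted from the starting file
`Pool.Agent.N469.TL.Hooley`). -/

namespace Pool.Agent.U308.TL
open Finset
open Pool.Agent.H373R2.T7
open Pool.Agent.Y885 (TLaw)
open Pool.Agent.Y958.RM (BadQ eH)
open Pool.Agent.N469.TL (eH_pow log_digits form level)
open Pool.Agent.N469.SM (SS mem_SS one_mem_SS SS_mono card_SS_le card_SS_pos)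

open Classical in
/-- few of the integers composed of primes from `P` give a bad modulus -/
theorem sm_badq2 (δ : ℝ) (hδ : 0 < δ) (Kp : ℕ) (μ : ℤ) (hμ : μ ≠ 0) (Bc A U : ℕ) (ε : ℝ) (hε : 0 < ε) (hε1 : ε ≤ 1) :
    ∃ e₀ N₀ : ℕ, ∀ N, N₀ ≤ N → ∀ (P : Finset ℕ) (y : ℕ),
    Cond2 δ Kp N P y →
    ∀ cc : ℤ, |cc| ≤ Bc * N →
    ∑ v ∈ SS P N, (if BadQ ε A (Nat.log 2 N + 1 + e₀) 2 (cc + μ * v) then 1 / ((SS P N).card : ℝ) else 0) ≤ 1 / Real.log N ^ U := by
  obtain ⟨V, hV⟩ := Pool.Agent.Y958.RM.main Pool.Agent.Y958.RM.cor A (U + 2) 2 3 le_rfl (by norm_num)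
  obtain ⟨H, hH⟩ : ∃ H, H = 2 * (A + 1) := ⟨_, rfl⟩
  rw [← hH] at hV
  obtain ⟨e₁, he₁⟩ : ∃ e₁, e₁ = 2 * Bc + μ.natAbs + 1 := ⟨_, rfl⟩
  obtain ⟨c, N1, h1⟩ := sm_tlaw2 δ hδ Kp μ.natAbs (H + 1) V (U + 1) (by omega)
  obtain ⟨k2, h2⟩ := hV ε hε hε1 c
  obtain ⟨N3, h3⟩ := ev_L' ((2 : ℕ) : ℝ)
  obtain ⟨T2, hT2⟩ : ∃ T2 : ℕ, T2 = 2 ^ (e₁ + 3 + H) := ⟨_, rfl⟩
  obtain ⟨R, hR⟩ : ∃ R, R = T2 + e₁ + k2 := ⟨_, rfl⟩
  obtain ⟨Z, hZ⟩ : ∃ Z : ℕ, Z = 2 ^ R := ⟨_, rfl⟩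
  refine ⟨e₁, N1 + N3 + Z + 4, fun N hN P y hP cc hcc => ?_⟩
  obtain ⟨w, hw0, hw1, hdom, hlaw⟩ := h1 N (by omega) P y hP
  have hL2 := h3 N (by omega)
  rw [Nat.cast_ofNat] at hL2
  obtain ⟨k, hk⟩ : ∃ k, k = Nat.log 2 N + 1 := ⟨_, rfl⟩
  have hRk : R ≤ k := by
    have : R ≤ Nat.log 2 N := (Nat.le_log_iff_pow_le (by norm_num) (by omega)).2 (by rw [← hZ]; omega)
    omega
  have hN2 : N < 2 ^ k := by rw [hk]; exact Nat.lt_pow_succ_log_self (by norm_num) N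
  have hlog := (log_digits N (by omega)).1
  rw [← hk] at hlog ⊢
  have hS : 0 < (SS P N).card := card_SS_pos P (by omega)
  have hSr : (0 : ℝ) < (SS P N).card := by exact_mod_cast hS
  obtain ⟨g1, g2⟩ := eH_pow e₁ H k (by rw [← hT2]; omega) (by omega)
  have key := h2 (k + e₁) (by omega) ℕ (SS P N) w (fun v : ℕ => cc + μ * v)
    hw1 (by
      intro h hh1 hh2
      rw [add_assoc]
      have := hlaw (e₁ + eH 2 H (k + e₁)) (by rw [← hk]; exact g1) h hh1 (by rw [← hk]; exact g2 h hh2)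
        (h * cc) (fun ω => (h : ℤ) * (cc + μ * ω)) (by
          rcases le_or_gt 0 μ with h0 | h0
          · left
            intro v
            have : (μ.natAbs : ℤ) = μ := Int.natAbs_of_nonneg h0
            rw [this]
            ring
          · right
            intro v
            have : (μ.natAbs : ℤ) = -μ := by omega
            rw [this]
            ring)
      rw [← hk] at this
      exact this) (by
      intro v hv
      have hvN : v ≤ N := (mem_SS.1 hv).1.2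
      have hv2 : (v : ℤ) ≤ (2 : ℤ) ^ k := by exact_mod_cast (by omega : v ≤ 2 ^ k)
      have hN2' : (N : ℤ) ≤ (2 : ℤ) ^ k := by exact_mod_cast hN2.le
      have a1 : |cc + μ * (v : ℤ)| ≤ |cc| + |μ * (v : ℤ)| := abs_add_le _ _
      have a2 : |μ * (v : ℤ)| ≤ (μ.natAbs : ℤ) * (2 : ℤ) ^ k := by
        rw [abs_mul, Int.abs_eq_natAbs μ, abs_of_nonneg (by positivity : (0 : ℤ) ≤ (v : ℤ))]
        exact mul_le_mul_of_nonneg_left hv2 (by positivity)
      have a3 : (Bc : ℤ) * N ≤ (Bc : ℤ) * (2 : ℤ) ^ k := mul_le_mul_of_nonneg_left hN2' (by positivity)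
      have a4 : ((e₁ : ℕ) : ℤ) ≤ (2 : ℤ) ^ e₁ := by exact_mod_cast (Nat.lt_two_pow_self).le
      have a5 : ((e₁ : ℕ) : ℤ) * (2 : ℤ) ^ k ≤ (2 : ℤ) ^ (k + e₁) := by
        rw [pow_add, mul_comm ((2 : ℤ) ^ k)]
        exact mul_le_mul_of_nonneg_right a4 (by positivity)
      have a6 : (0 : ℤ) < (2 : ℤ) ^ k := by positivity
      have a7 : ((e₁ : ℕ) : ℤ) = 2 * Bc + μ.natAbs + 1 := by rw [he₁]; push_cast; ring
      rw [a7] at a5
      have a8 : (0 : ℤ) ≤ (Bc : ℤ) * (2 : ℤ) ^ k := by positivity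
      have a9 : (2 * (Bc : ℤ) + (μ.natAbs : ℤ) + 1) * (2 : ℤ) ^ k = 2 * ((Bc : ℤ) * (2 : ℤ) ^ k) + (μ.natAbs : ℤ) * (2 : ℤ) ^ k + (2 : ℤ) ^ k := by ring
      rw [a9] at a5
      have a10 : |cc + μ * (v : ℤ)| ≤ (2 : ℤ) ^ (k + e₁) := by linarith
      exact_mod_cast a10)
    (fun v => BadQ ε A (k + e₁) 2 (cc + μ * v)) (fun _ => Classical.propDecidable _) (by
      intro v _ hv
      obtain ⟨g1, x, g2, g3, g4⟩ := hv
      exact ⟨g1, x, g2, g3, g4⟩)
  refine dom_le N U (SS P N) w hdom hL2 _ _ ((le_trans (le_of_eq ?_) key).trans ?_)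
  · apply sum_congr rfl
    intro v _
    congr
  · have hL0 : 0 < Real.log N := Real.log_pos (by exact_mod_cast (by omega : 1 < N))
    apply one_div_le_one_div_of_le (by positivity)
    apply pow_le_pow_left₀ hL0.le
    refine hlog.trans ?_
    exact_mod_cast (by omega : k ≤ k + e₁)

open Classical in
/-- few of the values are small -/
theorem sm_small2 (δ : ℝ) (hδ : 0 < δ) (Kp : ℕ) (μ : ℤ) (hμ : μ ≠ 0) (U : ℕ) :
    ∃ W N₀ : ℕ, ∀ N, N₀ ≤ N → ∀ (P : Finset ℕ) (y : ℕ),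
    Cond2 δ Kp N P y →
    ∀ cc : ℤ, ∑ v ∈ SS P N, (if 1 ≤ cc + μ * (v : ℤ) ∧ ((cc + μ * (v : ℤ) : ℤ) : ℝ) * Real.log N ^ W < N then 1 / ((SS P N).card : ℝ) else 0) ≤
      1 / Real.log N ^ U := by
  obtain ⟨c, N1, h1⟩ := sm_tlaw2 δ hδ Kp μ.natAbs 1 (U + 2 + 1) (U + 1) (by omega)
  obtain ⟨W, K0, h2⟩ := Pool.Agent.Y885.small_ball 2 le_rfl 3 c (U + 2) (by norm_num)
  obtain ⟨N2, h3⟩ := ev_L' ((2 ^ (W + 1) : ℕ) : ℝ)
  obtain ⟨Z, hZ⟩ : ∃ Z : ℕ, Z = 2 ^ K0 := ⟨_, rfl⟩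
  refine ⟨W + 2, N1 + N2 + Z + 4, fun N hN P y hP cc => ?_⟩
  obtain ⟨w, hw0, hw1, hdom, hlaw'⟩ := h1 N (by omega) P y hP
  obtain ⟨k, hk⟩ : ∃ k, k = Nat.log 2 N + 1 := ⟨_, rfl⟩
  have hRk : K0 ≤ k := by
    have : K0 ≤ Nat.log 2 N := (Nat.le_log_iff_pow_le (by norm_num) (by omega)).2 (by rw [← hZ]; omega)
    omega
  have hk1 : 1 ≤ k := by omega
  have hlaw := hlaw' 0 (by rw [← hk]; simpa using hk1) 1 le_rfl (by rw [← hk]; simpa using hk1)
    cc (fun ω => cc + μ * ω) (by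
      rcases le_or_gt 0 μ with h0 | h0
      · left
        intro v
        have : (μ.natAbs : ℤ) = μ := Int.natAbs_of_nonneg h0
        rw [this]
        push_cast
        ring
      · right
        intro v
        have : (μ.natAbs : ℤ) = -μ := by omega
        rw [this]
        push_cast
        ring)
  rw [← hk] at hlaw
  have hsb := h2 k hRk ℕ _ _ _ hlaw
  have hN2 : N < 2 ^ k := by rw [hk]; exact Nat.lt_pow_succ_log_self (by norm_num) N
  have hlog := (log_digits N (by omega))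
  rw [← hk] at hlog
  have hL3 := h3 N (by omega)
  have hL0 : 0 < Real.log N := Real.log_pos (by exact_mod_cast (by omega : 1 < N))
  have hN0 : (0 : ℝ) < N := by exact_mod_cast (by omega : 0 < N)
  have hL2 : 2 ≤ Real.log N := by
    refine le_trans ?_ hL3
    rw [pow_succ]
    push_cast
    have : (1 : ℝ) ≤ 2 ^ W := one_le_pow₀ (by norm_num)
    linarith
  refine dom_le N U (SS P N) w hdom hL2 _ _ ((le_trans (sum_le_sum ?_) hsb).trans ?_)
  · intro v _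
    have hp0 := hw0 v
    split_ifs with g1 g2
    · exact le_rfl
    · exfalso
      apply g2
      refine ⟨g1.1, ?_⟩
      have e0 : (N : ℝ) ≤ ((2 ^ k : ℕ) : ℝ) := by exact_mod_cast hN2.le
      have e1 : Real.log ((2 ^ k : ℕ) : ℝ) ≤ 2 * Real.log N := by
        have a1 : ((2 ^ k : ℕ) : ℝ) ≤ 2 * N := by
          have : 2 ^ k ≤ 2 * N := by
            rw [hk, pow_succ, mul_comm]
            exact Nat.mul_le_mul_left _ (Nat.pow_log_le_self 2 (by omega))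
          exact_mod_cast this
        have a2 := Real.log_le_log (by positivity) a1
        rw [Real.log_mul (by norm_num) hN0.ne'] at a2
        have a3 := Real.log_two_lt_d9
        have a4 : (1 : ℝ) ≤ Real.log N := by
          refine le_trans ?_ hL3
          exact_mod_cast Nat.one_le_two_pow
        linarith
      have e2 : 0 < Real.log ((2 ^ k : ℕ) : ℝ) := by
        apply Real.log_pos
        have : 1 < 2 ^ k := Nat.one_lt_two_pow (by omega)
        exact_mod_cast this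
      rw [lt_div_iff₀ (by positivity)]
      obtain ⟨z, hz⟩ : ∃ z : ℝ, z = ((cc + μ * (v : ℤ) : ℤ) : ℝ) := ⟨_, rfl⟩
      have hz1 : 1 ≤ z := by rw [hz]; exact_mod_cast g1.1
      have g12 := g1.2
      rw [← hz] at g12
      have e3 : Real.log ((2 ^ k : ℕ) : ℝ) ^ (W + 1) ≤ Real.log N ^ (W + 2) := by
        calc Real.log ((2 ^ k : ℕ) : ℝ) ^ (W + 1) ≤ (2 * Real.log N) ^ (W + 1) := pow_le_pow_left₀ e2.le e1 _
          _ = 2 ^ (W + 1) * Real.log N ^ (W + 1) := mul_pow _ _ _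
          _ ≤ Real.log N * Real.log N ^ (W + 1) := by
              apply mul_le_mul_of_nonneg_right _ (by positivity)
              exact_mod_cast hL3
          _ = _ := by ring
      calc ((cc + μ * (v : ℤ) : ℤ) : ℝ) * Real.log ((2 ^ k : ℕ) : ℝ) ^ (W + 1) ≤ z * Real.log N ^ (W + 2) := by
            rw [← hz]
            exact mul_le_mul_of_nonneg_left e3 (by linarith)
        _ < N := g12
        _ ≤ _ := e0
    · exact hp0
    · exact le_rfl
  · apply one_div_le_one_div_of_le (by positivity)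
    exact pow_le_pow_left₀ hL0.le hlog.1 _

end Pool.Agent.U308.TL
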