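import Pool.Agent.U308.TL.Base

set_option autoImplicit false

/-! Hooley's variance conjecture for all the multiples of all the moduli near almost all smooth numbers (adapted from the starting
files `Pool.Agent.N469.TL.Hooley` and `Pool.Agent.N625.PT.G`). -/

namespace Pool.Agent.U308.TL
open Finset
open Pool.Agent.H373R2.T7
open Pool.Agent.Y885 (TLaw)
open Pool.Agent.TH894.PV (G)
open Pool.Agent.Y958.RM (eH)
open Pool.Agent.N469.TL (log_digits form near abs_val)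
open Pool.Agent.N469.SM (SS mem_SS one_mem_SS SS_mono card_SS_le card_SS_pos)

/-- the size of the additional positions -/
lemma eH_pow2 (e₁ e₂ J H k : ℕ) (hk : 2 ^ (e₁ + 3 + H) ≤ k) (he : e₁ + e₂ ≤ k) (he2 : 2 ^ e₂ ≤ 2 * k ^ J) :
    2 ^ (e₁ + e₂ + eH 2 H (k + e₁ + e₂)) ≤ k ^ (H + J + 2) ∧ ∀ h : ℕ, Nat.log 2 h ≤ eH 2 H (k + e₁ + e₂) → h ≤ k ^ (H + 2) := by
  have hk0 : 0 < k := lt_of_lt_of_le (by positivity) hk
  have h1 : 2 ^ Nat.log 2 ((k + e₁ + e₂) ^ H) ≤ (k + e₁ + e₂) ^ H := Nat.pow_log_le_self 2 (by positivity)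
  have h2 : (k + e₁ + e₂) ^ H ≤ (2 * k) ^ H := Nat.pow_le_pow_left (by omega) H
  have h3 : 2 ^ (eH 2 H (k + e₁ + e₂)) ≤ 4 * (2 * k) ^ H := by
    unfold eH
    rw [pow_add]
    calc 2 ^ Nat.log 2 ((k + e₁ + e₂) ^ H) * 2 ^ 2 ≤ (2 * k) ^ H * 2 ^ 2 := Nat.mul_le_mul_right _ (h1.trans h2)
      _ = _ := by ring
  have h8 : 8 ≤ 2 ^ (e₁ + 3 + H) := by
    calc 8 = 2 ^ 3 := by norm_num
      _ ≤ _ := Nat.pow_le_pow_right (by norm_num) (by omega)
  constructor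
  · calc 2 ^ (e₁ + e₂ + eH 2 H (k + e₁ + e₂)) = 2 ^ e₁ * 2 ^ e₂ * 2 ^ (eH 2 H (k + e₁ + e₂)) := by rw [pow_add, pow_add]
      _ ≤ 2 ^ e₁ * (2 * k ^ J) * (4 * (2 * k) ^ H) := Nat.mul_le_mul (Nat.mul_le_mul_left _ he2) h3
      _ = 2 ^ (e₁ + 3 + H) * k ^ (H + J) := by
          rw [mul_pow, pow_add, pow_add, pow_add]
          ring
      _ ≤ k * k ^ (H + J) := Nat.mul_le_mul_right _ hk
      _ = k ^ (H + J + 1) := by ring
      _ ≤ k ^ (H + J + 2) := Nat.pow_le_pow_right hk0 (by omega)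
  · intro h hh
    have h5 : h < 2 ^ (Nat.log 2 h + 1) := Nat.lt_pow_succ_log_self (by norm_num) h
    have h6 : 2 ^ (Nat.log 2 h + 1) ≤ 2 ^ (eH 2 H (k + e₁ + e₂) + 1) := Nat.pow_le_pow_right (by norm_num) (by omega)
    have h7 : 2 ^ (eH 2 H (k + e₁ + e₂) + 1) ≤ k ^ (H + 2) := by
      calc 2 ^ (eH 2 H (k + e₁ + e₂) + 1) = 2 * 2 ^ (eH 2 H (k + e₁ + e₂)) := by rw [pow_succ]; ring
        _ ≤ 2 * (4 * (2 * k) ^ H) := Nat.mul_le_mul_left _ h3
        _ = 2 ^ (3 + H) * k ^ H := by rw [mul_pow, pow_add]; ring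
        _ ≤ 2 ^ (e₁ + 3 + H) * k ^ H := Nat.mul_le_mul_right _ (Nat.pow_le_pow_right (by norm_num) (by omega))
        _ ≤ k * k ^ H := Nat.mul_le_mul_right _ hk
        _ = k ^ (H + 1) := by ring
        _ ≤ k ^ (H + 2) := Nat.pow_le_pow_right hk0 (by omega)
    omega

theorem sm_varM2 (μ : ℤ) (hμ : μ ≠ 0) (Kp Bc A J κ U : ℕ) (ε : ℝ) (hε : 0 < ε) (hε1 : ε ≤ 1) (Pr : ℕ → Prop)
    (hPr : ∃ Q₀ : ℕ, ∀ q : ℕ, Q₀ ≤ q → (∀ x : ℝ, (q : ℝ) ≤ x → x ≤ q * Real.log q ^ κ → |G x q - x * Real.log q| ≤ ε * (x * Real.log q)) → Pr q)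
    (δ : ℝ) (hδ : 0 < δ) :
    ∃ N₀ : ℕ, ∀ N, N₀ ≤ N → ∀ P y, Cond2 δ Kp N P y → ∀ E : ℕ → Prop, ∀ _ : DecidablePred E,
    (∃ cc : ℤ, |cc| ≤ Bc * N ∧ ∀ v, E v → ∃ h : ℕ, 1 ≤ h ∧ (h : ℝ) ≤ Real.log N ^ J ∧ ∃ r : ℤ, |(r : ℝ)| ≤ Real.log N ^ A ∧
      0 < cc + μ * (v : ℤ) + r ∧ ¬ Pr ((h : ℤ) * (cc + μ * (v : ℤ) + r)).toNat) →
    ∑ v ∈ SS P N, (if E v then 1 / ((SS P N).card : ℝ) else 0) ≤ 1 / Real.log N ^ U := by
  classical
  obtain ⟨Q₀, hPr⟩ := hPr
  obtain ⟨U', hU'⟩ : ∃ U', U' = (U + J + 1) + A + 1 := ⟨_, rfl⟩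
  obtain ⟨e₁, he₁⟩ : ∃ e₁, e₁ = 2 * (Bc + 1) + μ.natAbs + 3 := ⟨_, rfl⟩
  obtain ⟨Ws, N1, h1⟩ := sm_small2 δ hδ Kp μ hμ (U' + 1)
  obtain ⟨κ', hκ'⟩ : ∃ κ', κ' = Ws + J + 2 + κ := ⟨_, rfl⟩
  obtain ⟨V, hV⟩ := Pool.Agent.Y958.RM.main Pool.Agent.Y958.RM.cor κ' (U' + 3) 2 3 le_rfl (by norm_num)
  obtain ⟨H, hH⟩ : ∃ H, H = 2 * (κ' + 1) := ⟨_, rfl⟩
  rw [← hH] at hV
  obtain ⟨c, N2, h2⟩ := sm_tlaw2 δ hδ Kp μ.natAbs (H + J + 2) V (U' + 2) (by omega)
  obtain ⟨K0, h3⟩ := hV ε hε hε1 c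
  obtain ⟨N4, h4⟩ := near J U
  obtain ⟨N5, h5⟩ := near A (U + J + 1)
  obtain ⟨N6, h6⟩ := ev_L' ((2 ^ (e₁ + 3 + H) * 3 ^ J : ℕ) : ℝ)
  obtain ⟨N7, h7⟩ := ev_log' Ws ((Q₀ + 3 : ℕ) : ℝ)
  obtain ⟨k8, h8⟩ : ∃ k8 : ℕ, ∀ k : ℕ, k8 ≤ k → e₁ + (Nat.clog 2 (k ^ J)) ≤ k := by
    obtain ⟨k9, h9⟩ := Pool.Agent.N469.TL.pow_two_ev' (J + 1)
    obtain ⟨M, hM⟩ : ∃ M : ℕ, M = 2 ^ (e₁ + 2) := ⟨_, rfl⟩
    have hM1 : 1 ≤ M := by rw [hM]; exact Nat.one_le_two_pow
    refine ⟨k9 + M, fun k hk => ?_⟩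
    have a1 := h9 k (by omega)
    have a3 : 2 ^ (Nat.clog 2 (k ^ J)) ≤ 2 * k ^ J := by
      rcases Nat.eq_zero_or_pos (Nat.clog 2 (k ^ J)) with h0 | h0
      · rw [h0, pow_zero]
        have : 0 < k ^ J := Nat.pow_pos (by omega)
        omega
      · have b3 : 2 ^ (Nat.clog 2 (k ^ J) - 1) < k ^ J := Nat.pow_pred_clog_lt_self (by norm_num) (by
            by_contra hc
            push Not at hc
            rw [Nat.clog_of_right_le_one hc] at h0
            omega)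
        have : 2 ^ Nat.clog 2 (k ^ J) = 2 * 2 ^ (Nat.clog 2 (k ^ J) - 1) := by rw [← pow_succ']; congr 1; omega
        omega
    have a4 : 2 ^ (e₁ + Nat.clog 2 (k ^ J)) ≤ 2 ^ k := by
      calc 2 ^ (e₁ + Nat.clog 2 (k ^ J)) = 2 ^ e₁ * 2 ^ Nat.clog 2 (k ^ J) := pow_add _ _ _
        _ ≤ 2 ^ e₁ * (2 * k ^ J) := Nat.mul_le_mul_left _ a3
        _ = 2 ^ (e₁ + 1) * k ^ J := by ring
        _ ≤ k * k ^ J := by
            apply Nat.mul_le_mul_right
            have : 2 ^ (e₁ + 1) ≤ 2 ^ (e₁ + 2) := Nat.pow_le_pow_right (by norm_num) (by omega)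
            rw [← hM] at this
            omega
        _ = k ^ (J + 1) := by ring
        _ ≤ 2 ^ k := a1
    exact (Nat.pow_le_pow_iff_right (by norm_num)).1 a4
  obtain ⟨T, hT⟩ : ∃ T : ℕ, T = 2 ^ (e₁ + 3 + H) := ⟨_, rfl⟩
  obtain ⟨Z, hZ⟩ : ∃ Z : ℕ, Z = 2 ^ (K0 + T + k8) := ⟨_, rfl⟩
  refine ⟨N1 + N2 + N4 + N5 + N6 + N7 + Z + 3, fun N hN P y hP E _ hE => ?_⟩
  obtain ⟨cc, hcc, hbad⟩ := hE
  obtain ⟨w, hw0, hw1, hdom, hlaw⟩ := h2 N (by omega) P y hP
  have hk : K0 + T + k8 ≤ Nat.log 2 N := (Nat.le_log_iff_pow_le (by norm_num) (by omega)).2 (by rw [← hZ]; omega)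
  obtain ⟨hlog, hlog3⟩ := log_digits N (by omega)
  have hLN0 : 0 < Real.log N := Real.log_pos (by exact_mod_cast (by omega : 1 < N))
  have hN0 : (0 : ℝ) < N := by exact_mod_cast (by omega : 0 < N)
  have hN1 : (1 : ℝ) < N := by exact_mod_cast (by omega : 1 < N)
  have hL6 := h6 N (by omega)
  push_cast at hL6
  have hL4 : 4 ≤ Real.log N := by
    refine le_trans ?_ hL6
    have a1 : (1 : ℝ) ≤ 3 ^ J := one_le_pow₀ (by norm_num)
    have a2 : (1 : ℝ) ≤ 2 ^ (e₁ + H) := one_le_pow₀ (by norm_num)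
    have a3 : (2 : ℝ) ^ (e₁ + 3 + H) = 8 * 2 ^ (e₁ + H) := by rw [show e₁ + 3 + H = (e₁ + H) + 3 by ring, pow_add]; norm_num; ring
    rw [a3]
    nlinarith
  have hp0 : (0 : ℝ) ≤ 1 / ((SS P N).card : ℝ) := by positivity
  -- the level
  obtain ⟨k, hkd⟩ : ∃ k, k = Nat.log 2 N + 1 := ⟨_, rfl⟩
  obtain ⟨e₂, he₂⟩ : ∃ e₂, e₂ = Nat.clog 2 (k ^ J) := ⟨_, rfl⟩
  have hk1 : 1 ≤ k := by omega
  have hekk : e₁ + e₂ ≤ k := by rw [he₂]; exact h8 k (by omega)
  have b1 : k ^ J ≤ 2 ^ e₂ := by rw [he₂]; exact Nat.le_pow_clog (by norm_num) _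
  have b2 : 2 ^ e₂ ≤ 2 * k ^ J := by
    rcases Nat.eq_zero_or_pos e₂ with h0 | h0
    · rw [h0, pow_zero]
      have := Nat.one_le_pow J k hk1
      omega
    · have b3 : 2 ^ (e₂ - 1) < k ^ J := by
        rw [he₂] at h0 ⊢
        exact Nat.pow_pred_clog_lt_self (by norm_num) (by
          by_contra hc
          push Not at hc
          rw [Nat.clog_of_right_le_one hc] at h0
          omega)
      have : 2 ^ e₂ = 2 * 2 ^ (e₂ - 1) := by rw [← pow_succ']; congr 1; omega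
      omega
  obtain ⟨g1, g2⟩ := eH_pow2 e₁ e₂ J H k (by rw [← hT]; omega) hekk b2
  obtain ⟨K, hK⟩ : ∃ K, K = k + e₁ + e₂ := ⟨_, rfl⟩
  rw [← hK] at g1 g2
  have hN2 : N < 2 ^ k := by rw [hkd]; exact Nat.lt_pow_succ_log_self (by norm_num) N
  have hkK : (k : ℝ) ≤ K := by exact_mod_cast (by omega : k ≤ K)
  have hK1 : (1 : ℝ) ≤ K := by exact_mod_cast (by omega : 1 ≤ K)
  have hLK : Real.log N ≤ K := hlog.trans (by rw [← hkd]; exact hkK)
  -- `2 ^ K` is not much larger than `N`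
  have hthr : ((2 ^ K : ℕ) : ℝ) ≤ N * (K : ℝ) ^ (J + 1) := by
    have c1 : 2 ^ K ≤ 2 ^ (e₁ + 3 + H) * k ^ J * N := by
      calc 2 ^ K = 2 ^ e₁ * 2 ^ e₂ * 2 ^ k := by rw [hK, ← pow_add, ← pow_add]; congr 1; omega
        _ ≤ 2 ^ e₁ * (2 * k ^ J) * (2 * N) := by
            apply Nat.mul_le_mul (Nat.mul_le_mul_left _ b2)
            rw [hkd, pow_succ, mul_comm]
            exact Nat.mul_le_mul_left _ (Nat.pow_log_le_self 2 (by omega))
        _ = 2 ^ (e₁ + 2) * k ^ J * N := by ring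
        _ ≤ 2 ^ (e₁ + 3 + H) * k ^ J * N :=
            Nat.mul_le_mul_right _ (Nat.mul_le_mul_right _ (Nat.pow_le_pow_right (by norm_num) (by omega)))
    have c3 : 2 ^ (e₁ + 3 + H) * k ^ J * N ≤ N * K ^ (J + 1) := by
      calc 2 ^ (e₁ + 3 + H) * k ^ J * N ≤ K * K ^ J * N := by
            apply Nat.mul_le_mul_right
            apply Nat.mul_le_mul _ (Nat.pow_le_pow_left (by omega) J)
            rw [← hT]
            omega
        _ = _ := by ring
    exact_mod_cast c1.trans c3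
  -- for one multiplier and one shift
  have hone : ∀ h : ℕ, 1 ≤ h → (h : ℝ) ≤ Real.log N ^ J → ∀ r : ℤ, |r| ≤ N →
      ∑ v ∈ SS P N, (if (0 < cc + μ * (v : ℤ) + r ∧ ¬ Pr ((h : ℤ) * (cc + μ * (v : ℤ) + r)).toNat) then 1 / ((SS P N).card : ℝ) else 0) ≤
        1 / Real.log N ^ U' := by
    intro h hh1 hh2 r hr
    have hhk : h ≤ k ^ J := by
      have : (h : ℝ) ≤ ((k ^ J : ℕ) : ℝ) := by
        refine hh2.trans ?_
        push_cast
        apply pow_le_pow_left₀ hLN0.le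
        rw [hkd]
        exact hlog
      exact_mod_cast this
    have hsz : ∀ v ∈ SS P N, |(h : ℤ) * (cc + μ * (v : ℤ) + r)| ≤ (2 : ℤ) ^ K := by
      intro v hv
      have a1 := abs_val μ Bc N v cc hcc (mem_SS.1 hv).1.2
      have a3 : |(cc + μ * (v : ℤ)) + r| ≤ |cc + μ * (v : ℤ)| + |r| := abs_add_le _ _
      have a5 : (N : ℤ) ≤ (2 : ℤ) ^ k := by exact_mod_cast hN2.le
      have a6 : ((e₁ : ℕ) : ℤ) ≤ (2 : ℤ) ^ e₁ := by exact_mod_cast (Nat.lt_two_pow_self).le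
      have a7 : |(cc + μ * (v : ℤ)) + r| ≤ (e₁ : ℤ) * N := by
        have : ((e₁ : ℕ) : ℤ) = 2 * (Bc + 1) + μ.natAbs + 3 := by rw [he₁]; push_cast; ring
        rw [this]
        push_cast at a1
        have : (0 : ℤ) ≤ Bc * (N : ℤ) := by positivity
        nlinarith
      have a8 : |(cc + μ * (v : ℤ)) + r| ≤ (2 : ℤ) ^ (k + e₁) := by
        refine a7.trans ?_
        rw [pow_add, mul_comm]
        exact mul_le_mul a5 a6 (by positivity) (by positivity)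
      rw [hK, abs_mul, Nat.abs_cast, pow_add _ (k + e₁) e₂, mul_comm]
      have c1 : (h : ℤ) ≤ (2 : ℤ) ^ e₂ := by exact_mod_cast hhk.trans b1
      exact mul_le_mul a8 c1 (by positivity) (by positivity)
    obtain ⟨Y, hY⟩ : ∃ Y : ℕ → ℤ, Y = fun v : ℕ => (h : ℤ) * (cc + μ * (v : ℤ) + r) := ⟨_, rfl⟩
    obtain ⟨Bd, hBd⟩ : ∃ Bd : ℕ → Prop, Bd = fun v => (2 : ℤ) ^ K ≤ Y v * (K : ℤ) ^ κ' ∧ ∃ x : ℝ, (Y v : ℝ) ≤ x ∧
      x ≤ Y v * (K : ℝ) ^ κ' ∧ ¬ |G x (Y v).toNat - x * Real.log (Y v)| ≤ ε * (x * Real.log (Y v)) := ⟨_, rfl⟩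
    have key := h3 K (by omega) ℕ (SS P N) w Y hw1 (by
      intro h' hh'1 hh'2
      have hform : (∀ v : ℕ, ((h' : ℤ) * Y v) = ((h' * h : ℕ) : ℤ) * (cc + r) + ((h' * h : ℕ) : ℤ) * ((μ.natAbs : ℤ) * (v : ℤ))) ∨
          (∀ v : ℕ, ((h' : ℤ) * Y v) = ((h' * h : ℕ) : ℤ) * (cc + r) - ((h' * h : ℕ) : ℤ) * ((μ.natAbs : ℤ) * (v : ℤ))) := by
        rcases form (h' * h) μ (((h' * h : ℕ) : ℤ) * (cc + r)) with hf | hf
        · left
          intro v
          rw [← hf v, hY]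
          push_cast
          ring
        · right
          intro v
          rw [← hf v, hY]
          push_cast
          ring
      have l2 := hlaw (e₁ + e₂ + eH 2 H K) (by rw [← hkd]; exact g1) (h' * h) (Nat.mul_pos hh'1 hh1) (by
        rw [← hkd]
        calc h' * h ≤ k ^ (H + 2) * k ^ J := Nat.mul_le_mul (g2 h' hh'2) hhk
          _ = k ^ (H + J + 2) := by ring) (((h' * h : ℕ) : ℤ) * (cc + r)) (fun v => (h' : ℤ) * Y v) hform
      rw [← hkd, show k + (e₁ + e₂ + eH 2 H K) = K + eH 2 H K by rw [hK]; ring] at l2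
      exact l2) (by
      intro v hv
      rw [hY]
      exact hsz v hv) Bd (Classical.decPred _) (fun v _ hv => by rw [hBd] at hv; exact hv)
    have g3 := dom_le N (U' + 1) (SS P N) w hdom (by linarith) _ _ (key.trans (by
      apply one_div_le_one_div_of_le (by positivity)
      exact pow_le_pow_left₀ hLN0.le hLK _))
    have g4 := h1 N (by omega) P y hP (cc + r)
    have g5 : 1 / Real.log N ^ (U' + 1) + 1 / Real.log N ^ (U' + 1) ≤ 1 / Real.log N ^ U' := by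
      rw [← add_div, div_le_div_iff₀ (by positivity) (by positivity), pow_succ, one_mul]
      have : 0 < Real.log N ^ U' := by positivity
      nlinarith
    refine le_trans (le_trans ?_ (add_le_add g4 g3)) g5
    rw [← sum_add_distrib]
    apply sum_le_sum
    intro v hv
    have hnn : ∀ Q : Prop, ∀ _ : Decidable Q, 0 ≤ (if Q then 1 / ((SS P N).card : ℝ) else 0) := by
      intro Q _
      split_ifs <;> first | exact hp0 | exact le_rfl
    by_cases c1 : 0 < cc + μ * (v : ℤ) + r ∧ ¬ Pr ((h : ℤ) * (cc + μ * (v : ℤ) + r)).toNat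
    · rw [if_pos c1]
      have hY0 : 1 ≤ (cc + r) + μ * (v : ℤ) := by linarith [c1.1]
      by_cases c2 : ((((cc + r) + μ * (v : ℤ) : ℤ)) : ℝ) * Real.log N ^ Ws < N
      · rw [if_pos ⟨hY0, c2⟩]
        exact le_add_of_nonneg_right (hnn _ _)
      · push Not at c2
        have c3 : Bd v := by
          by_contra hnb
          apply c1.2
          rw [hBd] at hnb
          have hYv : Y v = (h : ℤ) * ((cc + r) + μ * (v : ℤ)) := by rw [hY]; ring
          have d1 : (cc + r) + μ * (v : ℤ) ≤ Y v := by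
            have d2 : (1 : ℤ) ≤ h := by exact_mod_cast hh1
            rw [hYv]
            nlinarith
          have d1r : (((cc + r) + μ * (v : ℤ) : ℤ) : ℝ) ≤ (Y v : ℝ) := by exact_mod_cast d1
          have hYpos : 0 < Y v := by linarith
          have hYr : (0 : ℝ) < (Y v : ℝ) := by exact_mod_cast hYpos
          have d3 : (N : ℝ) ≤ (Y v : ℝ) * Real.log N ^ Ws :=
            c2.trans (mul_le_mul_of_nonneg_right d1r (by positivity))
          have d4 : (2 : ℤ) ^ K ≤ Y v * (K : ℤ) ^ κ' := by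
            have q1 : ((2 ^ K : ℕ) : ℝ) ≤ (Y v : ℝ) * (K : ℝ) ^ κ' := by
              calc ((2 ^ K : ℕ) : ℝ) ≤ N * (K : ℝ) ^ (J + 1) := hthr
                _ ≤ ((Y v : ℝ) * Real.log N ^ Ws) * (K : ℝ) ^ (J + 1) := mul_le_mul_of_nonneg_right d3 (by positivity)
                _ ≤ ((Y v : ℝ) * (K : ℝ) ^ Ws) * (K : ℝ) ^ (J + 1) := by
                    apply mul_le_mul_of_nonneg_right _ (by positivity)
                    apply mul_le_mul_of_nonneg_left _ hYr.le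
                    exact pow_le_pow_left₀ hLN0.le hLK _
                _ = (Y v : ℝ) * (K : ℝ) ^ (Ws + (J + 1)) := by rw [pow_add]; ring
                _ ≤ _ := by
                    apply mul_le_mul_of_nonneg_left _ hYr.le
                    exact pow_le_pow_right₀ hK1 (by omega)
            have q2 : (((2 : ℤ) ^ K : ℤ) : ℝ) ≤ ((Y v * (K : ℤ) ^ κ' : ℤ) : ℝ) := by
              push_cast at q1 ⊢
              exact q1
            exact_mod_cast q2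
          push Not at hnb
          have hnb2 := hnb d4
          have e0 : (h : ℤ) * (cc + μ * (v : ℤ) + r) = Y v := by rw [hY]
          rw [e0]
          obtain ⟨q, hq⟩ : ∃ q : ℕ, q = (Y v).toNat := ⟨_, rfl⟩
          have hqY : (q : ℤ) = Y v := by rw [hq]; exact Int.toNat_of_nonneg hYpos.le
          have hqr : (Y v : ℝ) = (q : ℝ) := by rw [← hqY]; push_cast; rfl
          rw [← hq]
          rw [hqr] at d3 hYr
          -- the modulus is large
          have hqbig : Q₀ ≤ q := by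
            have b1 := h7 N (by omega)
            by_contra hc
            push Not at hc
            have b2 : (q : ℝ) ≤ ((Q₀ + 3 : ℕ) : ℝ) := by exact_mod_cast (by omega : q ≤ Q₀ + 3)
            have b3 : (q : ℝ) * Real.log N ^ Ws ≤ √N := (mul_le_mul_of_nonneg_right b2 (by positivity)).trans b1
            have b4 : √(N : ℝ) < N := by
              rw [Real.sqrt_lt' hN0]
              nlinarith
            linarith
          have hqK : Real.log q ≤ K := by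
            have b1 : (q : ℝ) ≤ (2 : ℝ) ^ K := by
              have a1 := hsz v hv
              rw [e0, ← hqY, Nat.abs_cast] at a1
              exact_mod_cast a1
            have b2 := Real.log_le_log hYr b1
            rw [Real.log_pow] at b2
            have b3 := Real.log_two_lt_d9
            have b5 : (K : ℝ) * Real.log 2 ≤ K * 1 := mul_le_mul_of_nonneg_left (by linarith) (by linarith)
            linarith
          have hlq0 : 0 ≤ Real.log q := Real.log_natCast_nonneg _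
          apply hPr q hqbig
          intro x hx1 hx2
          have := hnb2 x (by rw [hqr]; exact hx1) (by
            rw [hqr]
            refine hx2.trans (mul_le_mul_of_nonneg_left ?_ hYr.le)
            calc Real.log q ^ κ ≤ (K : ℝ) ^ κ := pow_le_pow_left₀ hlq0 hqK _
              _ ≤ (K : ℝ) ^ κ' := pow_le_pow_right₀ hK1 (by omega))
          rw [hqr, ← hq] at this
          exact this
        rw [if_pos c3]
        exact le_add_of_nonneg_left (hnn _ _)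
    · rw [if_neg c1]
      exact add_nonneg (hnn _ _) (hnn _ _)
  -- the two union bounds
  refine h4 N (by omega) (SS P N) _ hp0 E _ (fun h v => 1 ≤ h ∧ (h : ℝ) ≤ Real.log N ^ J ∧ ∃ r : ℤ, |(r : ℝ)| ≤ Real.log N ^ A ∧
      0 < cc + μ * (v : ℤ) + r ∧ ¬ Pr (h * (cc + μ * (v : ℤ) + r)).toNat)
      (fun h v => Classical.propDecidable _) ?_ ?_
  · intro h hh _
    by_cases hh1 : 1 ≤ h
    · obtain ⟨n, hn⟩ : ∃ n : ℕ, h = n := ⟨h.toNat, by omega⟩
      subst hn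
      have hn1 : 1 ≤ n := by exact_mod_cast hh1
      have hn2 : (n : ℝ) ≤ Real.log N ^ J := by
        rw [Int.cast_natCast] at hh
        exact (le_abs_self _).trans hh
      refine h5 N (by omega) (SS P N) _ hp0 _ _ (fun r v => 0 < cc + μ * (v : ℤ) + r ∧
        ¬ Pr ((n : ℤ) * (cc + μ * (v : ℤ) + r)).toNat) (fun r v => Classical.propDecidable _) (fun r _ hr => ?_) (fun v _ hv => ?_)
      · have h6 := hone n hn1 hn2 r hr
        rw [hU'] at h6
        refine le_trans (le_of_eq ?_) h6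
        apply sum_congr rfl
        intro v _
        congr
      · obtain ⟨_, _, r, hr, h7⟩ := hv
        exact ⟨r, hr, h7⟩
    · refine le_trans (le_of_eq (sum_congr rfl fun v hv => ?_)) (?_ : (∑ v ∈ SS P N, (0 : ℝ)) ≤ _)
      · rw [if_neg (fun hc => hh1 hc.1)]
      · rw [sum_const_zero]
        positivity
  · intro v _ hEv
    obtain ⟨h, a1, a2, r, a3⟩ := hbad v hEv
    refine ⟨(h : ℤ), ?_, by exact_mod_cast a1, ?_, r, a3⟩
    · rw [Int.cast_natCast, abs_of_nonneg (Nat.cast_nonneg _)]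
      exact a2
    · rw [Int.cast_natCast]
      exact a2

end Pool.Agent.U308.TL
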