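import Pool.Agent.U308.TL.Fin
import Pool.Agent.N469.TL.Pair1

set_option autoImplicit false

/-! Prime pairs whose difference is an integer near a smooth number. -/

namespace Pool.Agent.U308.TL
open Finset
open Pool.Agent.H373R2.T7
open Pool.Agent.W93.TD (HLs)
open Pool.Agent.N469.TL (log_digits form level near abs_val pi_one)
open Pool.Agent.N469.SM (SS mem_SS one_mem_SS SS_mono card_SS_le card_SS_pos)

theorem sm_pair12 (μ : ℤ) (hμ : μ ≠ 0) (Kp Bc Bm A U : ℕ) (ε : ℝ) (hε : 0 < ε) (δ : ℝ) (hδ : 0 < δ) :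
    ∃ N₀ : ℕ, ∀ N, N₀ ≤ N → ∀ P y, Cond2 δ Kp N P y → ∀ E : ℕ → Prop, ∀ _ : DecidablePred E,
    (∃ (cc : ℤ) (M : ℕ), |cc| ≤ Bc * N ∧ M ≤ N ∧ N ≤ Bm * M ∧ ∀ v, E v → ∃ r : ℤ, |(r : ℝ)| ≤ Real.log N ^ A ∧ 0 < cc + μ * (v : ℤ) + r ∧
      ¬ HLs ε (U + A + 3) M (fun _ : Fin 1 => (cc + μ * (v : ℤ) + r).toNat)) →
    ∑ v ∈ SS P N, (if E v then 1 / ((SS P N).card : ℝ) else 0) ≤ 1 / Real.log N ^ U := by
  classical
  obtain ⟨U', hU'⟩ : ∃ U', U' = U + A + 1 + 2 := ⟨_, rfl⟩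
  obtain ⟨N2, h2⟩ := ev_L' ((2 : ℕ) : ℝ)
  obtain ⟨e₁, he₁⟩ : ∃ e₁, e₁ = 2 * (Bc + 1) + μ.natAbs + 3 := ⟨_, rfl⟩
  obtain ⟨c₁, N1, h1⟩ := sm_tlaw2 δ hδ Kp μ.natAbs 1 (2 * (2 * U' + 5 + 1 + 2) + 6) (U + A + 1 + 1) (by omega)
  obtain ⟨K0, h3⟩ := Pool.Agent.Y885.tl_tuples 1 2 3 c₁ (2 ^ (e₁ + 3) * Bm) U' le_rfl le_rfl (by norm_num) ε hε
  obtain ⟨N4, h4⟩ := near A U
  obtain ⟨T, hT⟩ : ∃ T : ℕ, T = 2 ^ (e₁ + 2) := ⟨_, rfl⟩
  obtain ⟨Z, hZ⟩ : ∃ Z : ℕ, Z = 2 ^ (K0 + T) := ⟨_, rfl⟩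
  refine ⟨N1 + N2 + N4 + Z + 3, fun N hN P y hP E _ hE => ?_⟩
  obtain ⟨w, hw0, hw1, hdom, hlaw⟩ := h1 N (by omega) P y hP
  have hL2 := h2 N (by omega)
  rw [Nat.cast_ofNat] at hL2
  obtain ⟨cc, M, hcc, hMN, hNM, hbad⟩ := hE
  have hk : K0 + T ≤ Nat.log 2 N := (Nat.le_log_iff_pow_le (by norm_num) (by omega)).2 (by rw [← hZ]; omega)
  have hlog := (log_digits N (by omega)).1
  have hLN0 : 0 < Real.log N := Real.log_pos (by exact_mod_cast (by omega : 1 < N))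
  have hp0 : (0 : ℝ) ≤ 1 / ((SS P N).card : ℝ) := by positivity
  have hSpos : (0 : ℝ) < ((SS P N).card : ℝ) := by exact_mod_cast card_SS_pos P (by omega)
  refine h4 N (by omega) (SS P N) _ hp0 E _ (fun r v => 0 < cc + μ * (v : ℤ) + r ∧
      ¬ HLs ε U' M (fun _ : Fin 1 => (cc + μ * (v : ℤ) + r).toNat)) (fun r v => Classical.propDecidable _) ?_ ?_
  · intro r _ hr
    have hform : (∀ v : ℕ, (cc + μ * (v : ℤ) + r) = (cc + r) + ((1 : ℕ) : ℤ) * ((μ.natAbs : ℤ) * (v : ℤ))) ∨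
        (∀ v : ℕ, (cc + μ * (v : ℤ) + r) = (cc + r) - ((1 : ℕ) : ℤ) * ((μ.natAbs : ℤ) * (v : ℤ))) := by
      rcases form 1 μ (cc + r) with h | h
      · left
        intro v
        rw [← h v]
        push_cast
        ring
      · right
        intro v
        rw [← h v]
        push_cast
        ring
    have he : 2 ^ (e₁ + 2) ≤ (Nat.log 2 N + 1) ^ 1 := by
      rw [pow_one, ← hT]
      omega
    have l1 := hlaw (e₁ + 2) he 1 le_rfl (Nat.one_le_pow _ _ (by omega)) (cc + r)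
      (fun v => cc + μ * (v : ℤ) + r) hform
    rw [show Nat.log 2 N + 1 + (e₁ + 2) = (Nat.log 2 N + 1 + e₁) + 2 by ring] at l1
    have a4 : N < 2 ^ (Nat.log 2 N + 1) := Nat.lt_pow_succ_log_self (by norm_num) N
    have hN2 : 2 ^ Nat.log 2 N ≤ N := Nat.pow_log_le_self 2 (by omega)
    have hsz : ∀ v ∈ SS P N, |cc + μ * (v : ℤ) + r| ≤ (2 : ℤ) ^ (Nat.log 2 N + 1 + e₁) := by
      intro v hv
      have a1 := abs_val μ Bc N v cc hcc (mem_SS.1 hv).1.2
      have a3 : |(cc + μ * (v : ℤ)) + r| ≤ |cc + μ * (v : ℤ)| + |r| := abs_add_le _ _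
      have a5 : (N : ℤ) ≤ (2 : ℤ) ^ (Nat.log 2 N + 1) := by exact_mod_cast a4.le
      have a6 : ((e₁ : ℕ) : ℤ) ≤ (2 : ℤ) ^ e₁ := by exact_mod_cast (Nat.lt_two_pow_self).le
      have a7 : |(cc + μ * (v : ℤ)) + r| ≤ (e₁ : ℤ) * N := by
        have : ((e₁ : ℕ) : ℤ) = 2 * (Bc + 1) + μ.natAbs + 3 := by rw [he₁]; push_cast; ring
        rw [this]
        push_cast at a1
        have : (0 : ℤ) ≤ Bc * (N : ℤ) := by positivity
        nlinarith
      refine a7.trans ?_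
      rw [pow_add, mul_comm]
      exact mul_le_mul a5 a6 (by positivity) (by positivity)
    obtain ⟨K, hK⟩ : ∃ K, K = Nat.log 2 N + 1 + e₁ := ⟨_, rfl⟩
    rw [← hK] at l1 hsz
    have hNK : (N : ℤ) ≤ (2 : ℤ) ^ K := by
      have b1 : N ≤ 2 ^ K := by
        rw [hK]
        exact a4.le.trans (Nat.pow_le_pow_right (by norm_num) (by omega))
      exact_mod_cast b1
    have hpos : (0 : ℤ) < (2 : ℤ) ^ K := by positivity
    have hKK : (2 : ℤ) ^ (K + 2) = 4 * (2 : ℤ) ^ K := by rw [pow_add]; ring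
    have key := h3 (K + 2) (by omega) ℕ inferInstance (fun _ => SS P N) (fun _ => w) (fun _ v => cc + μ * (v : ℤ) + r)
      (fun _ => l1) (fun _ => hw1) M
      (by
        have b1 : 2 ^ (K + 2) = 2 ^ (e₁ + 3) * 2 ^ Nat.log 2 N := by
          rw [← pow_add]
          congr 1
          omega
        rw [b1, mul_assoc]
        exact Nat.mul_le_mul_left _ (hN2.trans hNM))
      (by
        have b1 : N ≤ 2 ^ (K + 2) := a4.le.trans (Nat.pow_le_pow_right (by norm_num) (by omega))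
        omega)
      (fun _ v hv => by
        have b1 := hsz v hv
        rw [abs_le] at b1
        have b2 : (M : ℤ) ≤ N := by exact_mod_cast hMN
        push_cast
        rw [hKK]
        constructor
        · linarith [b1.1]
        · linarith [b1.2])
      (fun ω => 0 < cc + μ * (ω 0 : ℤ) + r ∧ ¬ HLs ε U' M (fun _ : Fin 1 => (cc + μ * (ω 0 : ℤ) + r).toNat))
      (Classical.decPred _) (fun ω _ hω => ⟨fun i => by
        have : i = 0 := Subsingleton.elim _ _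
        rw [this]
        exact hω.1.le, fun h => hω.2 (by
          have e : (fun i : Fin 1 => (cc + μ * (ω i : ℤ) + r).toNat) = (fun _ : Fin 1 => (cc + μ * (ω 0 : ℤ) + r).toNat) := by
            funext i
            have : i = 0 := Subsingleton.elim _ _
            rw [this]
          rw [← e]
          exact h)⟩)
    refine dom_le N (U + A + 1) (SS P N) w hdom hL2 _ _ ((le_trans (le_of_eq ?_) key).trans ?_)
    · rw [← pi_one (SS P N) (fun v : ℕ => @ite ℝ (0 < cc + μ * (v : ℤ) + r ∧ ¬ HLs ε U' M (fun _ : Fin 1 => (cc + μ * (v : ℤ) + r).toNat))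
        (Classical.propDecidable _) (w v) 0)]
      apply sum_congr rfl
      intro ω _
      rw [Fin.prod_univ_one]
    · apply one_div_le_one_div_of_le (by positivity)
      rw [← hU']
      apply pow_le_pow_left₀ hLN0.le
      refine hlog.trans ?_
      exact_mod_cast (by omega : Nat.log 2 N + 1 ≤ K + 2)
  · intro v _ hEv
    have e : U' = U + A + 3 := by omega
    rw [e]
    exact hbad v hEv

end Pool.Agent.U308.TL
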