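import Pool.Agent.U308.TL.Fin
import Pool.Agent.U308.SH.Count
import Pool.Agent.N625.PT.I

set_option autoImplicit false

/-! Prime tuples for all the multiples of all the integers near independent very smooth numbers. -/

namespace Pool.Agent.U308.TL
open Finset
open Pool.Agent.H373R2.T7
open Pool.Agent.Y885 (TLaw HLs_mono)
open Pool.Agent.W93.TD (HLs)
open Pool.Agent.N469.TL (log_digits form near abs_val)
open Pool.Agent.N625.PT (tlaw_mono_c union_gen)
open Pool.Agent.N469.SM (SS mem_SS one_mem_SS SS_mono card_SS_le card_SS_pos)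

/-- from the domination of the events to the domination of the points -/
lemma dom_pt (N U : ℕ) (S : Finset ℕ) (w : ℕ → ℝ) (hS : 0 < S.card) (hL : 1 ≤ Real.log N) (hd : Dominates N U S w) :
    ∃ Z : Finset ℕ, (Z.card : ℝ) ≤ (2 / Real.log N ^ U) * S.card ∧
      ∀ v ∈ S, v ∉ Z → 1 ≤ ((2 * Real.log N) * S.card) * w v := by
  classical
  obtain ⟨Z, hZ⟩ : ∃ Z, Z = S.filter (fun v => ((2 * Real.log N) * S.card) * w v < 1) := ⟨_, rfl⟩
  have hS0 : (0 : ℝ) < S.card := by exact_mod_cast hS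
  have hL0 : 0 < Real.log (N : ℝ) := by linarith
  refine ⟨Z, ?_, fun v hv hvZ => ?_⟩
  · have h1 := hd (fun v => v ∈ Z) (fun v => inferInstance)
    have hZS : S.filter (fun v => v ∈ Z) = Z := by
      ext v
      rw [mem_filter]
      refine ⟨fun h => h.2, fun h => ⟨?_, h⟩⟩
      rw [hZ, mem_filter] at h
      exact h.1
    rw [← sum_filter, ← sum_filter, hZS, sum_const, nsmul_eq_mul] at h1
    have h2 : ∑ v ∈ Z, w v ≤ Z.card * (1 / ((2 * Real.log N) * S.card)) := by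
      rw [← nsmul_eq_mul]
      apply sum_le_card_nsmul
      intro v hv
      rw [hZ, mem_filter] at hv
      rw [le_div_iff₀ (by positivity), mul_comm]
      exact hv.2.le
    have h3 : Real.log N * ∑ v ∈ Z, w v ≤ Z.card / (2 * S.card) := by
      calc Real.log N * ∑ v ∈ Z, w v ≤ Real.log N * (Z.card * (1 / ((2 * Real.log N) * S.card))) := mul_le_mul_of_nonneg_left h2 hL0.le
        _ = _ := by field_simp
    have h4 : (Z.card : ℝ) * (1 / S.card) ≤ Z.card / (2 * S.card) + 1 / Real.log N ^ U := by linarith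
    have h5 : (Z.card : ℝ) * (1 / S.card) = 2 * (Z.card / (2 * S.card)) := by field_simp
    have h6 : (Z.card : ℝ) / (2 * S.card) ≤ 1 / Real.log N ^ U := by linarith
    rw [div_le_iff₀ (by positivity)] at h6
    calc (Z.card : ℝ) ≤ 1 / Real.log N ^ U * (2 * S.card) := h6
      _ = _ := by ring
  · by_contra hc
    push Not at hc
    exact hvZ (by rw [hZ, mem_filter]; exact ⟨hv, hc⟩)

open Classical in
theorem sm_tuples2 (s : ℕ) (hs : 1 ≤ s) (δ : ℝ) (hδ : 0 < δ) (κ : Fin s → ℤ) (hκ : ∀ i, κ i ≠ 0) (Kp Bc J J₂ W U : ℕ)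
    (ε : ℝ) (hε : 0 < ε) : ∃ N₀ : ℕ, ∀ N, N₀ ≤ N → ∀ (P : Fin s → Finset ℕ) (y : Fin s → ℕ), (∀ i, Cond2 δ Kp N (P i) (y i)) →
    ∀ c : Fin s → ℤ, (∀ i, |c i| ≤ Bc * N) → ∀ X : ℕ, ((Bc + ∑ i, (κ i).natAbs + 1 : ℕ) : ℝ) * (N * Real.log N ^ J) ≤ X →
    (X : ℝ) ≤ N * Real.log N ^ J₂ →
    (((Fintype.piFinset fun i => SS (P i) N).filter fun v => ¬ ∀ h q : Fin s → ℕ, (∀ i, 1 ≤ h i ∧ (h i : ℝ) ≤ Real.log N ^ J) →
      (∀ i, |((q i - (c i + κ i * v i) : ℤ) : ℝ)| ≤ Real.log N ^ W) → HLs ε U X (fun i => h i * q i)).card : ℝ) ≤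
      ((Fintype.piFinset fun i => SS (P i) N).card : ℝ) / Real.log N ^ U := by
  obtain ⟨U', hU'⟩ : ∃ U', U' = U + s * (J + W + 1) + 2 * s + 1 := ⟨_, rfl⟩
  obtain ⟨V, hV⟩ : ∃ V, V = 2 * (2 * U' + 5 + s + 2) + 6 := ⟨_, rfl⟩
  have hκ1 : ∀ i, 1 ≤ (κ i).natAbs := fun i => Int.natAbs_pos.2 (hκ i)
  choose cc N1 hlaw using fun i => sm_tlaw2 δ hδ Kp (κ i).natAbs (J + J₂ + 1) V (U + 2) (hκ1 i)
  obtain ⟨c', hc'⟩ : ∃ c', c' = ∑ i, cc i := ⟨_, rfl⟩
  obtain ⟨N', hN'⟩ : ∃ N', N' = ∑ i, N1 i := ⟨_, rfl⟩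
  obtain ⟨κ', hκ'⟩ : ∃ κ', κ' = ∑ i, (κ i).natAbs := ⟨_, rfl⟩
  have hci : ∀ i, cc i ≤ c' := fun i => by rw [hc']; exact single_le_sum (fun _ _ => Nat.zero_le _) (mem_univ i)
  have hNi : ∀ i, N1 i ≤ N' := fun i => by rw [hN']; exact single_le_sum (fun _ _ => Nat.zero_le _) (mem_univ i)
  have hκi : ∀ i, (κ i).natAbs ≤ κ' := fun i => by rw [hκ']; exact single_le_sum (f := fun i => (κ i).natAbs) (fun _ _ => Nat.zero_le _) (mem_univ i)
  obtain ⟨K₀, hmain⟩ := Pool.Agent.Y885.tl_tuples s 2 3 c' 6 U' hs le_rfl (by norm_num) ε hε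
  obtain ⟨N4, h4⟩ := ev_log' W 1
  obtain ⟨N5, h5⟩ := ev_L' (4 * s + K₀ + 12)
  refine ⟨N' + N4 + N5 + 4, fun N hN P y hP c hc X hX1 hX2 => ?_⟩
  have hL5 := h5 N (by omega)
  obtain ⟨L, hL⟩ : ∃ L, L = Real.log (N : ℝ) := ⟨_, rfl⟩
  rw [← hL] at hL5 hX1 hX2 ⊢
  have hs0 : (0 : ℝ) ≤ s := Nat.cast_nonneg _
  have hK00 : (0 : ℝ) ≤ K₀ := Nat.cast_nonneg _
  have hL12 : 12 ≤ L := by linarith
  have hL0 : 0 < L := by linarith
  have hL1 : 1 ≤ L := by linarith
  have hN0 : (0 : ℝ) < N := by exact_mod_cast (by omega : 0 < N)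
  have hN1 : (1 : ℝ) ≤ N := by exact_mod_cast (by omega : 1 ≤ N)
  obtain ⟨d1, d2⟩ := log_digits N (by omega)
  obtain ⟨k, hk⟩ : ∃ k, k = Nat.log 2 N + 1 := ⟨_, rfl⟩
  rw [← hk, ← hL] at d1
  have hkr : (12 : ℝ) ≤ k := by linarith
  have hk12 : 12 ≤ k := by exact_mod_cast hkr
  have hNX : (N : ℝ) ≤ X := by
    refine le_trans ?_ hX1
    have e1 : (1 : ℝ) ≤ ((Bc + ∑ i, (κ i).natAbs + 1 : ℕ) : ℝ) := by
      push_cast
      have : (0 : ℝ) ≤ ∑ i, ((κ i).natAbs : ℝ) := sum_nonneg fun _ _ => Nat.cast_nonneg _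
      have : (0 : ℝ) ≤ Bc := Nat.cast_nonneg _
      linarith
    have e2 : (1 : ℝ) ≤ L ^ J := one_le_pow₀ hL1
    calc (N : ℝ) = 1 * (N * 1) := by ring
      _ ≤ _ := by gcongr
  have hNXn : N ≤ X := by exact_mod_cast hNX
  have hX0 : 0 < X := by omega
  -- the level
  obtain ⟨K, hK⟩ : ∃ K, K = Nat.clog 2 (3 * X) := ⟨_, rfl⟩
  have hK1 : 3 * X ≤ 2 ^ K := by rw [hK]; exact Nat.le_pow_clog (by norm_num) _
  have hK2 : 2 ^ K ≤ 6 * X := by
    have h7 : 1 < 3 * X := by omega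
    have h8 := Nat.pow_pred_clog_lt_self (b := 2) (by norm_num) h7
    have h9 : 0 < Nat.clog 2 (3 * X) := Nat.clog_pos (by norm_num) h7
    rw [← hK] at h8 h9
    have h10 : 2 ^ K = 2 * 2 ^ K.pred := by rw [← pow_succ']; congr 1; exact (Nat.succ_pred_eq_of_pos h9).symm
    omega
  have hNk : 2 ^ (Nat.log 2 N) ≤ N := Nat.pow_log_le_self 2 (by omega)
  have hkN : N < 2 ^ k := by rw [hk]; exact Nat.lt_pow_succ_log_self (by norm_num) N
  have hkK : k ≤ K := by
    have h7 : 2 ^ k ≤ 2 ^ K := by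
      rw [hk, pow_succ]
      omega
    exact (Nat.pow_le_pow_iff_right (by norm_num)).1 h7
  obtain ⟨e, he⟩ : ∃ e, K = k + e := ⟨K - k, by omega⟩
  have hLk : ∀ j, L ^ j ≤ (k : ℝ) ^ j := fun j => pow_le_pow_left₀ hL0.le d1 j
  have hk1r : (1 : ℝ) ≤ k := by linarith
  have he2 : 2 ^ e ≤ k ^ (J + J₂ + 1) := by
    have h7 : (2 : ℝ) ^ k * 2 ^ e ≤ 2 ^ k * (k : ℝ) ^ (J + J₂ + 1) := by
      calc (2 : ℝ) ^ k * 2 ^ e = ((2 ^ K : ℕ) : ℝ) := by rw [he, pow_add]; push_cast; ring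
        _ ≤ ((6 * X : ℕ) : ℝ) := by exact_mod_cast hK2
        _ = 6 * X := by push_cast; ring
        _ ≤ 6 * (N * L ^ J₂) := by linarith
        _ ≤ 6 * ((2 : ℝ) ^ k * (k : ℝ) ^ J₂) := by
            have : (N : ℝ) ≤ 2 ^ k := by exact_mod_cast hkN.le
            have := hLk J₂
            gcongr
        _ ≤ k * ((2 : ℝ) ^ k * (k : ℝ) ^ J₂) := mul_le_mul_of_nonneg_right (by linarith) (by positivity)
        _ = 2 ^ k * (k : ℝ) ^ (J₂ + 1) := by ring
        _ ≤ 2 ^ k * (k : ℝ) ^ (J + J₂ + 1) := mul_le_mul_of_nonneg_left (pow_le_pow_right₀ hk1r (by omega)) (by positivity)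
    have h8 := le_of_mul_le_mul_left h7 (by positivity)
    exact_mod_cast h8
  choose w hw0 hw1 hdom hlw using fun i => hlaw i N (by have := hNi i; omega) (P i) (y i) (hP i)
  have hcardS : ∀ i, 0 < (SS (P i) N).card := fun i => card_SS_pos (P i) (by omega)
  choose Z hZ1 hZ2 using fun i => dom_pt N (U + 2) (SS (P i) N) (w i) (hcardS i) (by rw [← hL]; exact hL1) (hdom i)
  rw [← hL] at hZ1 hZ2
  -- the indices
  obtain ⟨R, hR⟩ : ∃ R : ℕ, R = ⌊L ^ J⌋₊ := ⟨_, rfl⟩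
  obtain ⟨H, hH⟩ : ∃ H : ℕ, H = ⌊L ^ W⌋₊ := ⟨_, rfl⟩
  have hR1 : (R : ℝ) ≤ L ^ J := by rw [hR]; exact Nat.floor_le (by positivity)
  have hH1 : (H : ℝ) ≤ L ^ W := by rw [hH]; exact Nat.floor_le (by positivity)
  have hW := h4 N (by omega)
  rw [one_mul, ← hL] at hW
  have hHN : (H : ℝ) ≤ N := by
    have e3 : √(N : ℝ) ≤ N := by
      rw [Real.sqrt_le_left (by positivity)]
      nlinarith
    exact hH1.trans (hW.trans e3)
  have hHNn : H ≤ N := by exact_mod_cast hHN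
  obtain ⟨I, hI⟩ : ∃ I : Finset ((Fin s → ℕ) × (Fin s → ℤ)), I = Fintype.piFinset (fun _ : Fin s => Icc 1 R) ×ˢ
    Fintype.piFinset (fun _ : Fin s => Icc (-(H : ℤ)) (H : ℤ)) := ⟨_, rfl⟩
  have key := union_gen (Fintype.piFinset (fun i : Fin s => SS (P i) N)) (fun v => ∏ i, w i (v i))
    (fun v _ => prod_nonneg fun i _ => hw0 i _) I
    (fun hσ v => (∀ i, 0 ≤ (hσ.1 i : ℤ) * (c i + hσ.2 i + κ i * v i)) ∧
      ¬ HLs ε U' X (fun i => ((hσ.1 i : ℤ) * (c i + hσ.2 i + κ i * v i)).toNat))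
    (fun v => ∀ h q : Fin s → ℕ, (∀ i, 1 ≤ h i ∧ (h i : ℝ) ≤ L ^ J) →
      (∀ i, |((q i - (c i + κ i * v i) : ℤ) : ℝ)| ≤ L ^ W) → HLs ε U X (fun i => h i * q i)) (by
      intro v _ hv
      push Not at hv
      obtain ⟨h, q, hh, hq, hbad⟩ := hv
      refine ⟨(h, fun i => (q i : ℤ) - (c i + κ i * v i)), ?_, ?_⟩
      · rw [hI, mem_product, Fintype.mem_piFinset, Fintype.mem_piFinset]
        refine ⟨fun i => mem_Icc.2 ⟨(hh i).1, ?_⟩, fun i => ?_⟩
        · rw [hR]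
          exact Nat.le_floor (hh i).2
        · rw [mem_Icc]
          apply abs_le.1
          rw [Int.abs_eq_natAbs, hH]
          have h6 : (((q i : ℤ) - (c i + κ i * v i)).natAbs : ℝ) ≤ L ^ W := by
            rw [Nat.cast_natAbs, Int.cast_abs]
            exact hq i
          exact_mod_cast Nat.le_floor h6
      · have e1 : ∀ i, (h i : ℤ) * (c i + ((q i : ℤ) - (c i + κ i * v i)) + κ i * v i) = ((h i * q i : ℕ) : ℤ) := by
          intro i
          push_cast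
          ring
        simp only [e1, Int.toNat_natCast]
        refine ⟨fun i => by positivity, fun hgood => hbad ?_⟩
        exact HLs_mono (by omega) (by omega) hgood) (1 / L ^ U') (by
      rintro ⟨h, σ⟩ hmem
      rw [hI, mem_product, Fintype.mem_piFinset, Fintype.mem_piFinset] at hmem
      obtain ⟨hh, hσ⟩ := hmem
      simp only at hh hσ
      have hhi : ∀ i, 1 ≤ h i ∧ h i ≤ R := fun i => mem_Icc.1 (hh i)
      have hσi : ∀ i, |σ i| ≤ (H : ℤ) := fun i => abs_le.2 (mem_Icc.1 (hσ i))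
      have hhk : ∀ i, h i ≤ k ^ (J + J₂ + 1) := by
        intro i
        have e1 : (h i : ℝ) ≤ (k : ℝ) ^ (J + J₂ + 1) := by
          calc (h i : ℝ) ≤ R := by exact_mod_cast (hhi i).2
            _ ≤ L ^ J := hR1
            _ ≤ (k : ℝ) ^ J := hLk J
            _ ≤ _ := pow_le_pow_right₀ hk1r (by omega)
        exact_mod_cast e1
      have hsize : ∀ i, ∀ v ∈ SS (P i) N, |(h i : ℤ) * (c i + σ i + κ i * v)| ≤ X := by
        intro i v hv
        have hvN : v ≤ N := (mem_SS.1 hv).1.2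
        have v0 : (0 : ℤ) ≤ (v : ℤ) := Int.natCast_nonneg _
        have v1 : ((v : ℕ) : ℤ) ≤ (N : ℤ) := by exact_mod_cast hvN
        have q1 := abs_add_le (c i + σ i) (κ i * (v : ℤ))
        have q2 := abs_add_le (c i) (σ i)
        have q3 : |κ i * (v : ℤ)| ≤ ((κ i).natAbs : ℤ) * (N : ℤ) := by
          rw [abs_mul, Int.abs_eq_natAbs (κ i), abs_of_nonneg v0]
          exact mul_le_mul_of_nonneg_left v1 (Int.natCast_nonneg _)
        have hσN : |σ i| ≤ (N : ℤ) := (hσi i).trans (by exact_mod_cast hHNn)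
        have q4 : |c i + σ i + κ i * (v : ℤ)| ≤ ((Bc + κ' + 1 : ℕ) : ℤ) * (N : ℤ) := by
          have q5 : ((κ i).natAbs : ℤ) * (N : ℤ) ≤ (κ' : ℤ) * (N : ℤ) := by
            apply mul_le_mul_of_nonneg_right _ (Int.natCast_nonneg _)
            exact_mod_cast hκi i
          push_cast
          linarith [hc i]
        have q6 : ((|(h i : ℤ) * (c i + σ i + κ i * v)| : ℤ) : ℝ) ≤ X := by
          rw [abs_mul, Nat.abs_cast]
          push_cast
          have q7 : |((c i : ℝ) + σ i + κ i * (v : ℝ))| ≤ ((Bc + κ' + 1 : ℕ) : ℝ) * N := by exact_mod_cast q4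
          calc (h i : ℝ) * |((c i : ℝ) + σ i + κ i * (v : ℝ))| ≤ L ^ J * (((Bc + κ' + 1 : ℕ) : ℝ) * N) := by
                apply mul_le_mul _ q7 (abs_nonneg _) (by positivity)
                exact (by exact_mod_cast (hhi i).2 : (h i : ℝ) ≤ R).trans hR1
            _ = ((Bc + κ' + 1 : ℕ) : ℝ) * (N * L ^ J) := by ring
            _ ≤ X := by rw [hκ']; exact hX1
        exact_mod_cast q6
      have t := hmain K (by
          have e1 : (K₀ : ℝ) ≤ k := by linarith
          have e2 : K₀ ≤ k := by exact_mod_cast e1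
          omega) ℕ inferInstance (fun i => SS (P i) N) w
        (fun i v => (h i : ℤ) * (c i + σ i + κ i * v)) (fun i => by
          have := hlw i e (by rw [← hk]; exact he2) (h i) (hhi i).1 (by rw [← hk]; exact hhk i) ((h i : ℤ) * (c i + σ i))
            (fun v => (h i : ℤ) * (c i + σ i + κ i * v)) (by
              rcases form (h i) (κ i) ((h i : ℤ) * (c i + σ i)) with hf | hf
              · left
                intro v
                rw [← hf v]
                ring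
              · right
                intro v
                rw [← hf v]
                ring)
          rw [← hk, ← he] at this
          rw [← hV]
          exact tlaw_mono_c (by omega) (hci i) this) hw1 X hK2 (by omega) (by
          intro i v hv
          have h5 := hsize i v hv
          rw [abs_le] at h5
          have h6 : (3 * (X : ℤ)) ≤ (2 : ℤ) ^ K := by exact_mod_cast hK1
          have h7 : (0 : ℤ) < X := by exact_mod_cast hX0
          constructor
          · push_cast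
            linarith [h5.1]
          · push_cast
            linarith [h5.2])
        (fun v => (∀ i, 0 ≤ (h i : ℤ) * (c i + σ i + κ i * v i)) ∧
          ¬ HLs ε U' X (fun i => ((h i : ℤ) * (c i + σ i + κ i * v i)).toNat)) (fun _ => Classical.propDecidable _)
        (fun v _ hv => hv)
      refine le_trans t ?_
      apply one_div_le_one_div_of_le (by positivity)
      apply pow_le_pow_left₀ hL0.le
      refine d1.trans ?_
      exact_mod_cast hkK)
  have hcard : (I.card : ℝ) ≤ L ^ (s * (J + W + 1)) := by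
    rw [hI, card_product, Fintype.card_piFinset, Fintype.card_piFinset]
    simp only [Nat.card_Icc, Int.card_Icc, Nat.add_sub_cancel, prod_const, card_univ, Fintype.card_fin]
    push_cast
    rw [← mul_pow, mul_comm s, pow_mul]
    apply pow_le_pow_left₀ (by positivity)
    have e1 : ((((H : ℤ) + 1 - -(H : ℤ)).toNat : ℕ) : ℝ) = 2 * (H : ℝ) + 1 := by
      have : (((H : ℤ) + 1 - -(H : ℤ)).toNat : ℤ) = 2 * (H : ℤ) + 1 := by
        rw [Int.toNat_of_nonneg (by omega)]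
        ring
      exact_mod_cast this
    rw [e1]
    have e2 : (1 : ℝ) ≤ L ^ W := one_le_pow₀ hL1
    calc (R : ℝ) * (2 * (H : ℝ) + 1) ≤ L ^ J * (L * L ^ W) :=
          mul_le_mul hR1 (by nlinarith) (by positivity) (by positivity)
      _ = L ^ (J + W + 1) := by ring
  have key2 : ∑ v ∈ Fintype.piFinset (fun i : Fin s => SS (P i) N), (if ¬ (∀ h q : Fin s → ℕ, (∀ i, 1 ≤ h i ∧ (h i : ℝ) ≤ L ^ J) →
      (∀ i, |((q i - (c i + κ i * v i) : ℤ) : ℝ)| ≤ L ^ W) → HLs ε U X (fun i => h i * q i)) then ∏ i, w i (v i) else 0) ≤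
      1 / L ^ (U + 2 * s + 1) := by
    calc _ = ∑ v ∈ Fintype.piFinset (fun i : Fin s => SS (P i) N), (if (∀ h q : Fin s → ℕ, (∀ i, 1 ≤ h i ∧ (h i : ℝ) ≤ L ^ J) →
      (∀ i, |((q i - (c i + κ i * v i) : ℤ) : ℝ)| ≤ L ^ W) → HLs ε U X (fun i => h i * q i)) then 0 else ∏ i, w i (v i)) := by
          apply sum_congr rfl
          intro v _
          rw [ite_not]
      _ ≤ I.card * (1 / L ^ U') := key
      _ ≤ L ^ (s * (J + W + 1)) * (1 / L ^ U') := mul_le_mul_of_nonneg_right hcard (by positivity)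
      _ = 1 / L ^ (U + 2 * s + 1) := by
          rw [hU', show U + s * (J + W + 1) + 2 * s + 1 = s * (J + W + 1) + (U + 2 * s + 1) by ring, pow_add L (s * (J + W + 1))]
          field_simp
  have k2 := Pool.Agent.U308.SH.count (fun i => SS (P i) N) Z w
    (fun v => ¬ ∀ h q : Fin s → ℕ, (∀ i, 1 ≤ h i ∧ (h i : ℝ) ≤ L ^ J) →
      (∀ i, |((q i - (c i + κ i * v i) : ℤ) : ℝ)| ≤ L ^ W) → HLs ε U X (fun i => h i * q i)) (2 * L) (1 / L ^ (U + 2 * s + 1)) (2 / L ^ (U + 2))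
    (by positivity) (by positivity) hZ1 (fun i v _ => hw0 i v) hZ2 (by
      refine le_trans (le_of_eq ?_) key2
      apply sum_congr rfl
      intro v _
      congr)
  obtain ⟨T, hT⟩ : ∃ T : ℝ, T = ((Fintype.piFinset fun i => SS (P i) N).card : ℝ) := ⟨_, rfl⟩
  have hT0 : 0 ≤ T := by rw [hT]; exact Nat.cast_nonneg _
  rw [← hT] at k2 ⊢
  refine k2.trans ?_
  rw [show T / L ^ U = (1 / L ^ U) * T by ring]
  apply mul_le_mul_of_nonneg_right _ hT0
  have e1 : (s : ℝ) * (2 / L ^ (U + 2)) ≤ 1 / (2 * L ^ U) := by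
    rw [mul_div_assoc', div_le_div_iff₀ (by positivity) (by positivity), one_mul, pow_add]
    have : 4 * (s : ℝ) ≤ L ^ 2 := by nlinarith
    have h0 : 0 < L ^ U := by positivity
    nlinarith
  have e2 : (2 * L) ^ s * (1 / L ^ (U + 2 * s + 1)) ≤ 1 / (2 * L ^ U) := by
    have e3 : (2 * L) ^ s ≤ L ^ (2 * s) := by
      rw [pow_mul]
      apply pow_le_pow_left₀ (by positivity)
      nlinarith
    calc (2 * L) ^ s * (1 / L ^ (U + 2 * s + 1)) ≤ L ^ (2 * s) * (1 / L ^ (U + 2 * s + 1)) := mul_le_mul_of_nonneg_right e3 (by positivity)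
      _ = 1 / (L * L ^ U) := by
          rw [show U + 2 * s + 1 = 2 * s + (U + 1) by ring, pow_add L (2 * s), pow_succ L U]
          field_simp
      _ ≤ _ := by
          apply one_div_le_one_div_of_le (by positivity)
          apply mul_le_mul_of_nonneg_right _ (by positivity)
          linarith
  calc (s : ℝ) * (2 / L ^ (U + 2)) + (2 * L) ^ s * (1 / L ^ (U + 2 * s + 1)) ≤ 1 / (2 * L ^ U) + 1 / (2 * L ^ U) := add_le_add e1 e2
    _ = 1 / L ^ U := by field_simp; norm_num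

end Pool.Agent.U308.TL
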